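import Pool.Agent.Lib.GS4.TP
/-! MP_2e24f1_ag, row AF: the Alexandrov-Fenchel inequality for mixed discriminants of size four.

Positive definite case. For `Im z > 0`, `Im w ≥ 0`, `Im w' ≥ 0` the matrix
`z B + w X + w' X' + R` is regular (imaginary part of `v^* (…) v`). By `TR_self` and multilinearity
`24 det (M + w X + w' X') = ∑ …` is a polynomial in `w, w'` with coefficient `12 T(M, M, X, X')` at
`w w'` (`T` = the complex multilinear form `topCoeff 4 (lin · * lin · * lin · * lin ·)`). For fixed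
`z, w'` the polynomial in `w` has degree `4` (leading coefficient `det X`) and all its roots have
negative imaginary part, so by Gauss-Lucas
(`Polynomial.rootSet_derivative_subset_convexHull_rootSet`) its derivative does not vanish at
`w = 0`; the same for `w'` (degree `3`, leading coefficient `4 T(X, X', X', X') ≠ 0`). So the
quadratic polynomial `T(zB + R, zB + R, X, X') = z² TR B B X X' + 2 z TR B R X X' + TR R R X X'`
with real coefficients and positive leading coefficient has no root with `Im z > 0`, so its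
discriminant is nonnegative.
General case: add `ε • 1` to `B`, `X`, `X'` and let `ε → 0` (polynomial in `ε`). -/

set_option autoImplicit false

open Matrix Pool.Agent.MP2e24f1
open scoped ComplexOrder

namespace Pool.Agent.Lib.GS4

section Algebra

variable {S : Type*} [CommRing S] [Algebra ℂ S] (L : S →ₗ[ℂ] ℂ)

private theorem expand4 (a b : S) (w : ℂ) :
    L ((a + w • b) * (a + w • b) * (a + w • b) * (a + w • b)) =
      L (a * a * a * a) + (4 * L (a * a * a * b)) * w + (6 * L (a * a * b * b)) * w ^ 2 +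
        (4 * L (a * b * b * b)) * w ^ 3 + L (b * b * b * b) * w ^ 4 := by
  have h : (a + w • b) * (a + w • b) * (a + w • b) * (a + w • b) =
      a * a * a * a + (4 * w) • (a * a * a * b) + (6 * w ^ 2) • (a * a * b * b) +
        (4 * w ^ 3) • (a * b * b * b) + (w ^ 4) • (b * b * b * b) := by
    simp only [Algebra.smul_def, map_mul, map_pow, map_ofNat]
    ring
  rw [h]
  simp only [map_add, map_smul, smul_eq_mul]
  ring

private theorem expand3 (a b c : S) (w : ℂ) :
    L ((a + w • b) * (a + w • b) * (a + w • b) * c) =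
      L (a * a * a * c) + (3 * L (a * a * b * c)) * w + (3 * L (a * b * b * c)) * w ^ 2 +
        L (b * b * b * c) * w ^ 3 := by
  have h : (a + w • b) * (a + w • b) * (a + w • b) * c =
      a * a * a * c + (3 * w) • (a * a * b * c) + (3 * w ^ 2) • (a * b * b * c) +
        (w ^ 3) • (b * b * b * c) := by
    simp only [Algebra.smul_def, map_mul, map_pow, map_ofNat]
    ring
  rw [h]
  simp only [map_add, map_smul, smul_eq_mul]
  ring

private theorem expand2 (b r c e : S) (z : ℂ) :
    L ((z • b + r) * (z • b + r) * c * e) =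
      L (b * b * c * e) * z ^ 2 + (2 * L (b * r * c * e)) * z + L (r * r * c * e) := by
  have h : (z • b + r) * (z • b + r) * c * e =
      (z ^ 2) • (b * b * c * e) + (2 * z) • (b * r * c * e) + r * r * c * e := by
    simp only [Algebra.smul_def, map_mul, map_pow, map_ofNat]
    ring
  rw [h]
  simp only [map_add, map_smul, smul_eq_mul]
  ring

private theorem expandE (a a' b b' c c' e e' : S) (w : ℂ) :
    L ((a + w • a') * (b + w • b') * (c + w • c') * (e + w • e')) =
      L (a * b * c * e) +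
      w * L (a' * b * c * e + a * b' * c * e + a * b * c' * e + a * b * c * e') +
      w ^ 2 * L (a' * b' * c * e + a' * b * c' * e + a' * b * c * e' + a * b' * c' * e +
        a * b' * c * e' + a * b * c' * e') +
      w ^ 3 * L (a' * b' * c' * e + a' * b' * c * e' + a' * b * c' * e' + a * b' * c' * e') +
      w ^ 4 * L (a' * b' * c' * e') := by
  have h : (a + w • a') * (b + w • b') * (c + w • c') * (e + w • e') =
      a * b * c * e +
      w • (a' * b * c * e + a * b' * c * e + a * b * c' * e + a * b * c * e') +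
      (w ^ 2) • (a' * b' * c * e + a' * b * c' * e + a' * b * c * e' + a * b' * c' * e +
        a * b' * c * e' + a * b * c' * e') +
      (w ^ 3) • (a' * b' * c' * e + a' * b' * c * e' + a' * b * c' * e' + a * b' * c' * e') +
      (w ^ 4) • (a' * b' * c' * e') := by
    simp only [Algebra.smul_def, map_pow]
    ring
  rw [h, map_add, map_add, map_add, map_add, map_smul, map_smul, map_smul, map_smul]
  rfl

end Algebra

/-- The derivative at `0` of a polynomial without roots in the closed upper half plane. -/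
private theorem deriv_ne {P : Polynomial ℂ} (hd : 0 < P.degree)
    (h : ∀ w : ℂ, 0 ≤ w.im → P.eval w ≠ 0) : P.coeff 1 ≠ 0 := by
  intro h1
  have hP : P ≠ 0 := by
    rintro rfl
    simp at hd
  have hP' : P.derivative ≠ 0 := by
    intro h0
    have := Polynomial.derivative_eq_zero.1 h0
    rw [← Polynomial.natDegree_pos_iff_degree_pos] at hd
    omega
  have h2 : (0 : ℂ) ∈ P.derivative.rootSet ℂ := by
    rw [Polynomial.mem_rootSet]
    refine ⟨hP', ?_⟩
    rw [Polynomial.coe_aeval_eq_eval, ← Polynomial.coeff_zero_eq_eval_zero,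
      Polynomial.coeff_derivative, h1]
    simp
  have h3 := Polynomial.rootSet_derivative_subset_convexHull_rootSet hd h2
  have h4 : P.rootSet ℂ ⊆ {w : ℂ | w.im < 0} := by
    intro w hw
    rw [Polynomial.mem_rootSet] at hw
    by_contra hcon
    simp only [Set.mem_ofPred_eq, not_lt] at hcon
    apply h w hcon
    have := hw.2
    rwa [Polynomial.coe_aeval_eq_eval] at this
  have h5 : Convex ℝ {w : ℂ | w.im < 0} := by
    have := (convex_Iio (0 : ℝ)).linear_preimage Complex.imLm
    simpa [Set.preimage] using this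
  have h6 := convexHull_min h4 h5 h3
  simp at h6

private theorem poly4 (c0 c1 c2 c3 c4 : ℂ) : ∃ P : Polynomial ℂ,
    (∀ w, P.eval w = c0 + c1 * w + c2 * w ^ 2 + c3 * w ^ 3 + c4 * w ^ 4) ∧
    P.coeff 1 = c1 ∧ P.coeff 3 = c3 ∧ P.coeff 4 = c4 := by
  refine ⟨Polynomial.C c0 + Polynomial.C c1 * Polynomial.X + Polynomial.C c2 * Polynomial.X ^ 2 +
    Polynomial.C c3 * Polynomial.X ^ 3 + Polynomial.C c4 * Polynomial.X ^ 4, ?_, ?_, ?_, ?_⟩
  · intro w
    simp
  · simp [Polynomial.coeff_X, Polynomial.coeff_C, Polynomial.coeff_X_pow]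
  · simp [Polynomial.coeff_X, Polynomial.coeff_C, Polynomial.coeff_X_pow]
  · simp [Polynomial.coeff_X, Polynomial.coeff_C, Polynomial.coeff_X_pow]

/-- the complex multilinear form -/
private noncomputable def TC (A B C D : M4) : ℂ := topCoeff 4 (lin A * lin B * lin C * lin D)

private theorem im_pd {B : M4} (hB : B.PosDef) {v : Fin 4 → ℂ} (hv : v ≠ 0) :
    0 < (star v ⬝ᵥ (B *ᵥ v)).re ∧ (star v ⬝ᵥ (B *ᵥ v)).im = 0 := by
  have h1 := hB.dotProduct_mulVec_pos hv
  rw [Complex.lt_def] at h1
  exact ⟨by simpa using h1.1, by simpa using h1.2.symm⟩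

private theorem im_herm {R : M4} (hR : R.IsHermitian) (v : Fin 4 → ℂ) :
    (star v ⬝ᵥ (R *ᵥ v)).im = 0 := by
  exact hR.im_star_dotProduct_mulVec_self v

/-- regularity of the pencil -/
private theorem det_ne {B R X X' : M4} (hB : B.PosDef) (hR : R.IsHermitian) (hX : X.PosDef)
    (hX' : X'.PosDef) {z w w' : ℂ} (hz : 0 < z.im) (hw : 0 ≤ w.im) (hw' : 0 ≤ w'.im) :
    (z • B + R + w' • X' + w • X).det ≠ 0 := by
  intro h0
  obtain ⟨v, hv, hMv⟩ := Matrix.exists_mulVec_eq_zero_iff.2 h0
  have h1 : star v ⬝ᵥ ((z • B + R + w' • X' + w • X) *ᵥ v) = 0 := by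
    rw [hMv, dotProduct_zero]
  simp only [add_mulVec, smul_mulVec, dotProduct_add, dotProduct_smul, smul_eq_mul] at h1
  have h2 := congrArg Complex.im h1
  simp only [Complex.add_im, Complex.mul_im, Complex.zero_im] at h2
  obtain ⟨b1, b2⟩ := im_pd hB hv
  obtain ⟨x1, x2⟩ := im_pd hX hv
  obtain ⟨y1, y2⟩ := im_pd hX' hv
  have r2 := im_herm hR v
  rw [b2, x2, y2, r2] at h2
  have p1 := mul_pos hz b1
  have p2 := mul_nonneg hw x1.le
  have p3 := mul_nonneg hw' y1.le
  linarith

private theorem step1 {B R X X' : M4} (hB : B.PosDef) (hR : R.IsHermitian) (hX : X.PosDef)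
    (hX' : X'.PosDef) {z w' : ℂ} (hz : 0 < z.im) (hw' : 0 ≤ w'.im) :
    TC (z • B + R + w' • X') (z • B + R + w' • X') (z • B + R + w' • X') X ≠ 0 := by
  set N := z • B + R + w' • X' with hN
  have hexp : ∀ w : ℂ, 24 * (N + w • X).det =
      TC N N N N + (4 * TC N N N X) * w + (6 * TC N N X X) * w ^ 2 + (4 * TC N X X X) * w ^ 3 +
        TC X X X X * w ^ 4 := by
    intro w
    rw [← TR_self, lin_add, lin_smul, expand4]
    rfl
  obtain ⟨P, hPe, hc1, -, hc4⟩ := poly4 (TC N N N N) (4 * TC N N N X) (6 * TC N N X X)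
    (4 * TC N X X X) (TC X X X X)
  have hev : ∀ w : ℂ, P.eval w = 24 * (N + w • X).det := by
    intro w
    rw [hexp, hPe]
  have hXd : TC X X X X ≠ 0 := by
    rw [TC, TR_self]
    have := (hX.det_pos).ne'
    simpa using this
  have hdeg : 0 < P.degree := by
    rw [← Polynomial.natDegree_pos_iff_degree_pos]
    have := Polynomial.le_natDegree_of_ne_zero (hc4 ▸ hXd : P.coeff 4 ≠ 0)
    omega
  have h1 := deriv_ne hdeg (fun w hw => by
    rw [hev]
    exact mul_ne_zero (by norm_num) (det_ne hB hR hX hX' hz hw hw'))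
  rw [hc1] at h1
  exact right_ne_zero_of_mul h1

private theorem step2 {B R X X' : M4} (hB : B.PosDef) (hR : R.IsHermitian) (hX : X.PosDef)
    (hX' : X'.PosDef) {z : ℂ} (hz : 0 < z.im) :
    TC (z • B + R) (z • B + R) X X' ≠ 0 := by
  set M := z • B + R with hM
  have hexp : ∀ w : ℂ, TC (M + w • X') (M + w • X') (M + w • X') X =
      TC M M M X + (3 * TC M M X' X) * w + (3 * TC M X' X' X) * w ^ 2 + TC X' X' X' X * w ^ 3 := by
    intro w
    rw [TC, lin_add, lin_smul, expand3]
    rfl
  obtain ⟨P, hPe, hc1, hc3, -⟩ := poly4 (TC M M M X) (3 * TC M M X' X) (3 * TC M X' X' X)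
    (TC X' X' X' X) 0
  have hev : ∀ w : ℂ, P.eval w = TC (M + w • X') (M + w • X') (M + w • X') X := by
    intro w
    rw [hexp, hPe, zero_mul, add_zero]
  have hXd : TC X' X' X' X ≠ 0 := by
    intro h0
    have h1 := TR_pos hX' hX' hX' hX
    have h2 : TR X' X' X' X = 0 := by
      rw [TR]
      rw [TC] at h0
      rw [h0]
      simp
    linarith
  have hdeg : 0 < P.degree := by
    rw [← Polynomial.natDegree_pos_iff_degree_pos]
    have := Polynomial.le_natDegree_of_ne_zero (hc3 ▸ hXd : P.coeff 3 ≠ 0)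
    omega
  have h1 := deriv_ne hdeg (fun w hw => by
    rw [hev]
    exact step1 hB hR hX hX' hz hw)
  rw [hc1] at h1
  have h2 : TC M M X' X ≠ 0 := right_ne_zero_of_mul h1
  have h3 : TC M M X' X = TC M M X X' := by
    have h4 : lin M * lin M * lin X' * lin X = lin M * lin M * lin X * lin X' := by ring
    rw [TC, TC, h4]
  rwa [h3] at h2

theorem AF_posDef {B R X X' : M4} (hB : B.PosDef) (hR : R.IsHermitian) (hX : X.PosDef)
    (hX' : X'.PosDef) : TR B B X X' * TR R R X X' ≤ TR B R X X' ^ 2 := by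
  by_contra hcon
  rw [not_le] at hcon
  have ha : 0 < TR B B X X' := TR_pos hB hB hX hX'
  set a := TR B B X X' with hadef
  set b := TR B R X X' with hbdef
  set c := TR R R X X' with hcdef
  have e1 : TC B B X X' = (a : ℂ) := TR_im hB.1 hB.1 hX.1 hX'.1
  have e2 : TC B R X X' = (b : ℂ) := TR_im hB.1 hR hX.1 hX'.1
  have e3 : TC R R X X' = (c : ℂ) := TR_im hR hR hX.1 hX'.1
  have hD : 0 < a * c - b ^ 2 := by linarith
  set s := Real.sqrt (a * c - b ^ 2) with hs
  have hs0 : 0 < s := Real.sqrt_pos.2 hD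
  have hss : s ^ 2 = a * c - b ^ 2 := Real.sq_sqrt hD.le
  have haC : (a : ℂ) ≠ 0 := by exact_mod_cast ha.ne'
  have key := step2 hB hR hX hX' (z := (-(b : ℂ) + s * Complex.I) / a) (by
    rw [Complex.div_ofReal_im]
    simp only [Complex.add_im, Complex.neg_im, Complex.ofReal_im, neg_zero, Complex.mul_im,
      Complex.ofReal_re, Complex.I_im, Complex.I_re, mul_one, mul_zero, zero_add, add_zero]
    exact div_pos hs0 ha)
  apply key
  rw [TC, lin_add, lin_smul, expand2]
  change TC B B X X' * _ + (2 * TC B R X X') * _ + TC R R X X' = 0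
  rw [e1, e2, e3]
  have hI : Complex.I ^ 2 = -1 := Complex.I_sq
  have hssC : (s : ℂ) ^ 2 = a * c - b ^ 2 := by exact_mod_cast hss
  field_simp
  linear_combination (s : ℂ) ^ 2 * hI - hssC

/-- continuity of the perturbation -/
private theorem tendsto_TR (A A' B B' C C' D D' : M4) :
    Filter.Tendsto (fun ε : ℝ => TR (A + (ε : ℂ) • A') (B + (ε : ℂ) • B') (C + (ε : ℂ) • C')
      (D + (ε : ℂ) • D')) (nhdsWithin 0 (Set.Ioi 0)) (nhds (TR A B C D)) := by
  have hc : Continuous (fun ε : ℝ => TR (A + (ε : ℂ) • A') (B + (ε : ℂ) • B') (C + (ε : ℂ) • C')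
      (D + (ε : ℂ) • D')) := by
    unfold TR
    simp only [lin_add, lin_smul, expandE]
    fun_prop
  have h0 := hc.tendsto 0
  have e : TR (A + ((0 : ℝ) : ℂ) • A') (B + ((0 : ℝ) : ℂ) • B') (C + ((0 : ℝ) : ℂ) • C')
      (D + ((0 : ℝ) : ℂ) • D') = TR A B C D := by
    simp
  rw [e] at h0
  exact h0.mono_left nhdsWithin_le_nhds

private theorem posDef_add {B : M4} (hB : B.PosSemidef) {ε : ℝ} (hε : 0 < ε) :
    (B + (ε : ℂ) • (1 : M4)).PosDef := by
  have h1 : ((ε : ℂ) • (1 : M4)).PosDef := Matrix.PosDef.one.smul (by exact_mod_cast hε)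
  exact h1.posSemidef_add hB

theorem AF {B R X X' : M4} (hB : B.PosSemidef) (hR : R.IsHermitian) (hX : X.PosSemidef)
    (hX' : X'.PosSemidef) : TR B B X X' * TR R R X X' ≤ TR B R X X' ^ 2 := by
  have t1 := tendsto_TR B 1 B 1 X 1 X' 1
  have t2 := tendsto_TR R 0 R 0 X 1 X' 1
  have t3 := tendsto_TR B 1 R 0 X 1 X' 1
  refine le_of_tendsto_of_tendsto (t1.mul t2) (t3.pow 2) ?_
  filter_upwards [self_mem_nhdsWithin] with ε hε
  have hε' : (0 : ℝ) < ε := hε
  have key := AF_posDef (posDef_add hB hε') hR (posDef_add hX hε') (posDef_add hX' hε')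
  simpa using key

end Pool.Agent.Lib.GS4
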