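import Pool.Agent.Lib.GS4.Defs
/-! MP_2e24f1_ag, row CB: the curvature of a block diagonal metric is block diagonal.

`h⁻¹` is block diagonal at each point (for example `h` commutes with the projections onto the
blocks); entries outside the blocks of `h`, `connection h j` vanish on the open set `U`, so their
derivatives vanish on `U` (`Filter.EventuallyEq.fderiv_eq`). -/

set_option autoImplicit false

open Matrix Pool.Agent.MP2e24f1
open scoped ComplexOrder

namespace Pool.Agent.Lib.GS4

private theorem cb_inv {r : ℕ} {β : Type*} [DecidableEq β] (b : Fin r → β)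
    (H : Matrix (Fin r) (Fin r) ℂ) (hdet : IsUnit H.det) (hb : ∀ a c, b a ≠ b c → H a c = 0)
    (a c : Fin r) (hac : b a ≠ b c) : H⁻¹ a c = 0 := by
  set P : Matrix (Fin r) (Fin r) ℂ := Matrix.diagonal (fun i => if b i = b a then (1 : ℂ) else 0) with hP
  have h1 : H * P = P * H := by
    ext i k
    rw [hP, Matrix.mul_diagonal, Matrix.diagonal_mul]
    by_cases h : b i = b k
    · rw [h, mul_comm]
    · rw [hb i k h, zero_mul, mul_zero]
  have h2 : H⁻¹ * P = P * H⁻¹ := by
    calc H⁻¹ * P = H⁻¹ * P * (H * H⁻¹) := by rw [Matrix.mul_nonsing_inv H hdet, mul_one]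
      _ = H⁻¹ * (P * H) * H⁻¹ := by simp only [mul_assoc]
      _ = H⁻¹ * (H * P) * H⁻¹ := by rw [h1]
      _ = (H⁻¹ * H) * P * H⁻¹ := by simp only [mul_assoc]
      _ = P * H⁻¹ := by rw [Matrix.nonsing_inv_mul H hdet, one_mul]
  have h3 := congrFun (congrFun h2 a) c
  rw [hP, Matrix.mul_diagonal, Matrix.diagonal_mul, if_neg (Ne.symm hac), if_pos rfl, mul_zero, one_mul] at h3
  exact h3.symm

private theorem cb_dir {d : ℕ} {U : Set (Fin d → ℂ)} (hU : IsOpen U) (f : (Fin d → ℂ) → ℂ)
    (hf : ∀ y ∈ U, f y = 0) {x : Fin d → ℂ} (hx : x ∈ U) (w : Fin d → ℂ) : dirDeriv w f x = 0 := by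
  have h1 : f =ᶠ[nhds x] fun _ => (0 : ℂ) := by
    filter_upwards [hU.mem_nhds hx] with y hy using hf y hy
  unfold dirDeriv
  rw [h1.fderiv_eq]
  simp

theorem curvature_block {d r : ℕ} {β : Type*} [DecidableEq β] (b : Fin r → β)
    {U : Set (Fin d → ℂ)} (hU : IsOpen U) {h : (Fin d → ℂ) → Matrix (Fin r) (Fin r) ℂ}
    (hh : IsHermitianMetric U h) (hb : ∀ x ∈ U, ∀ a c, b a ≠ b c → h x a c = 0)
    {x : Fin d → ℂ} (hx : x ∈ U) (j l : Fin d) (a c : Fin r) (hac : b a ≠ b c) :
    curvature h x j l a c = 0 := by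
  have h1 : ∀ y ∈ U, ∀ a c, b a ≠ b c → connection h j y a c = 0 := by
    intro y hy a c hac
    show (dWirt j h y * (h y)⁻¹) a c = 0
    rw [Matrix.mul_apply]
    refine Finset.sum_eq_zero fun e _ => ?_
    by_cases hbe : b a = b e
    · have h2 : b e ≠ b c := fun h' => hac (hbe.trans h')
      rw [cb_inv b (h y) ((hh.pos y hy).isUnit.map Matrix.detMonoidHom) (hb y hy) e c h2, mul_zero]
    · have h2 : dWirt j h y a e = 0 := by
        show (dirDeriv (Pi.single j 1) (fun y => h y a e) y
          - Complex.I * dirDeriv (Pi.single j Complex.I) (fun y => h y a e) y) / 2 = 0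
        rw [cb_dir hU _ (fun z hz => hb z hz a e hbe) hy, cb_dir hU _ (fun z hz => hb z hz a e hbe) hy]
        simp
      rw [h2, zero_mul]
  show (- dWirtBar l (connection h j) x) a c = 0
  rw [Matrix.neg_apply]
  have h3 : dWirtBar l (connection h j) x a c = 0 := by
    show (dirDeriv (Pi.single l 1) (fun y => connection h j y a c) x
      + Complex.I * dirDeriv (Pi.single l Complex.I) (fun y => connection h j y a c) x) / 2 = 0
    rw [cb_dir hU _ (fun z hz => h1 z hz a c hac) hx, cb_dir hU _ (fun z hz => h1 z hz a c hac) hx]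
    simp
  rw [h3, neg_zero]

end Pool.Agent.Lib.GS4
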