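import Pool.Agent.Lib.GS4.Defs
/-! MP_2e24f1_ag, row CV: systems of rank two in Lorentz coordinates.

For `x` in the forward cone the matrix `(1/2) [[x₀ + x₃, x₁ - i x₂], [x₁ + i x₂, x₀ - x₃]]` is a
sum of two matrices `star (v a) v b`, so `Bof K x` is a sum of two values of the form `frm K`. -/

set_option autoImplicit false

open Matrix Pool.Agent.MP2e24f1
open scoped ComplexOrder

namespace Pool.Agent.Lib.GS4

theorem Bof_eq (K : Fin 2 → Fin 2 → M4) (x : V4) :
    Bof K x = (((x 0 + x 3) / 2 : ℝ) : ℂ) • K 0 0 + (((x 0 - x 3) / 2 : ℝ) : ℂ) • K 1 1 +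
      ((((x 1 : ℝ) : ℂ) - Complex.I * (x 2 : ℝ)) / 2) • K 0 1 +
      ((((x 1 : ℝ) : ℂ) + Complex.I * (x 2 : ℝ)) / 2) • K 1 0 := by
  unfold Bof Bmat
  rw [Fin.sum_univ_four]
  simp only [if_true, show (1 : Fin 4) ≠ 0 by decide, show (2 : Fin 4) ≠ 0 by decide,
    show (2 : Fin 4) ≠ 1 by decide, show (3 : Fin 4) ≠ 0 by decide,
    show (3 : Fin 4) ≠ 1 by decide, show (3 : Fin 4) ≠ 2 by decide, if_false]
  push_cast
  module

theorem Bof_add (K : Fin 2 → Fin 2 → M4) (x y : V4) :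
    Bof K (x + y) = Bof K x + Bof K y := by
  unfold Bof
  rw [← Finset.sum_add_distrib]
  refine Finset.sum_congr rfl fun μ _ => ?_
  rw [Pi.add_apply, Complex.ofReal_add, add_smul]

theorem frm_two (K : Fin 2 → Fin 2 → M4) (v : Fin 2 → ℂ) :
    frm K v = (star (v 0) * v 0) • K 0 0 + (star (v 1) * v 1) • K 1 1 +
      (star (v 0) * v 1) • K 0 1 + (star (v 1) * v 0) • K 1 0 := by
  unfold frm
  rw [Fin.sum_univ_two, Fin.sum_univ_two, Fin.sum_univ_two]
  abel

/-- The decomposition of the points of the cone. -/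
theorem exists_decomp {x : V4} (hx : Cone x) : ∃ v w : Fin 2 → ℂ,
    (∀ K : Fin 2 → Fin 2 → M4, Bof K x = frm K v + frm K w) ∧ (x ≠ 0 → v ≠ 0 ∨ w ≠ 0) := by
  obtain ⟨h0, h1⟩ := hx
  unfold eta at h1
  have hs3 : 0 ≤ x 0 + x 3 := by
    by_contra h
    rw [not_le] at h
    nlinarith [sq_nonneg (x 1), sq_nonneg (x 2), sq_nonneg (x 0 - x 3), sq_nonneg (x 0 + x 3)]
  rcases hs3.lt_or_eq with hp | hz
  · -- the main case
    obtain ⟨r, hr0, hr⟩ : ∃ r : ℝ, 0 < r ∧ r * r = (x 0 + x 3) / 2 :=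
      ⟨Real.sqrt ((x 0 + x 3) / 2), Real.sqrt_pos.2 (by linarith),
        Real.mul_self_sqrt (by linarith)⟩
    have hrest : 0 ≤ (x 0 - x 3) / 2 - (x 1 * x 1 + x 2 * x 2) / (4 * (r * r)) := by
      rw [hr, sub_nonneg, div_le_iff₀ (by linarith)]
      nlinarith
    obtain ⟨s, hs⟩ : ∃ s : ℝ,
        s * s = (x 0 - x 3) / 2 - (x 1 * x 1 + x 2 * x 2) / (4 * (r * r)) :=
      ⟨Real.sqrt _, Real.mul_self_sqrt hrest⟩
    have hrC : (r : ℂ) ≠ 0 := by exact_mod_cast hr0.ne'
    refine ⟨![(r : ℂ), (((x 1 : ℝ) : ℂ) - Complex.I * (x 2 : ℝ)) / (2 * r)], ![0, (s : ℂ)],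
      fun K => ?_, fun _ => Or.inl fun h => ?_⟩
    · rw [Bof_eq, frm_two, frm_two]
      simp only [Matrix.cons_val_zero, Matrix.cons_val_one, star_zero, zero_mul, mul_zero,
        zero_smul, zero_add, add_zero]
      have e0 : star (r : ℂ) * r = (((x 0 + x 3) / 2 : ℝ) : ℂ) := by
        rw [← hr]
        simp
      have hst : star ((((x 1 : ℝ) : ℂ) - Complex.I * (x 2 : ℝ)) / (2 * r)) =
          (((x 1 : ℝ) : ℂ) + Complex.I * (x 2 : ℝ)) / (2 * r) := by
        simp [Complex.conj_ofReal]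
      have e1 : star ((((x 1 : ℝ) : ℂ) - Complex.I * (x 2 : ℝ)) / (2 * r)) *
          ((((x 1 : ℝ) : ℂ) - Complex.I * (x 2 : ℝ)) / (2 * r)) + star (s : ℂ) * s =
          (((x 0 - x 3) / 2 : ℝ) : ℂ) := by
        have e2 : star (s : ℂ) * s = ((s * s : ℝ) : ℂ) := by simp
        rw [e2, hs, hst]
        have e3 : (((x 1 : ℝ) : ℂ) + Complex.I * (x 2 : ℝ)) / (2 * r) *
            ((((x 1 : ℝ) : ℂ) - Complex.I * (x 2 : ℝ)) / (2 * r)) =
            (((x 1 * x 1 + x 2 * x 2) / (4 * (r * r)) : ℝ) : ℂ) := by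
          push_cast
          field_simp
          linear_combination (-4 * (x 2 : ℂ) * (x 2 : ℂ)) * Complex.I_mul_I
        rw [e3]
        push_cast
        ring
      have e4 : star (r : ℂ) * ((((x 1 : ℝ) : ℂ) - Complex.I * (x 2 : ℝ)) / (2 * r)) =
          (((x 1 : ℝ) : ℂ) - Complex.I * (x 2 : ℝ)) / 2 := by
        have : star (r : ℂ) = r := Complex.conj_ofReal r
        rw [this]
        field_simp
      have e5 : star ((((x 1 : ℝ) : ℂ) - Complex.I * (x 2 : ℝ)) / (2 * r)) * (r : ℂ) =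
          (((x 1 : ℝ) : ℂ) + Complex.I * (x 2 : ℝ)) / 2 := by
        rw [hst]
        field_simp
      rw [e0, e4, e5, ← e1, add_smul]
      abel
    · have := congrFun h 0
      simp only [Matrix.cons_val_zero, Pi.zero_apply] at this
      exact hrC this
  · -- `x₀ + x₃ = 0`
    have h12 : x 1 * x 1 + x 2 * x 2 ≤ 0 := by nlinarith
    have hx1 : x 1 = 0 := by nlinarith [mul_self_nonneg (x 1), mul_self_nonneg (x 2)]
    have hx2 : x 2 = 0 := by nlinarith [mul_self_nonneg (x 1), mul_self_nonneg (x 2)]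
    obtain ⟨s, hs⟩ : ∃ s : ℝ, s * s = x 0 := ⟨Real.sqrt _, Real.mul_self_sqrt h0⟩
    have hx3 : x 3 = -x 0 := by linarith
    refine ⟨0, ![0, (s : ℂ)], fun K => ?_, fun hne => Or.inr fun h => hne ?_⟩
    · rw [Bof_eq, frm_two, frm_two]
      simp only [Matrix.cons_val_zero, Matrix.cons_val_one, star_zero, zero_mul, mul_zero,
        zero_smul, zero_add, add_zero, Pi.zero_apply]
      have e2 : star (s : ℂ) * s = ((x 0 : ℝ) : ℂ) := by rw [← hs]; simp
      rw [e2, hx1, hx2, hx3]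
      simp
    · have h2 := congrFun h 1
      have hs0 : s = 0 := by simpa using h2
      have hx0 : x 0 = 0 := by rw [← hs, hs0, mul_zero]
      funext μ
      fin_cases μ
      · exact hx0
      · exact hx1
      · exact hx2
      · show x 3 = 0
        rw [hx3, hx0, neg_zero]

theorem Bof_posSemidef {K : Fin 2 → Fin 2 → M4} (hK : GPos K) {x : V4} (hx : Cone x) :
    (Bof K x).PosSemidef := by
  obtain ⟨v, w, h, -⟩ := exists_decomp hx
  rw [h K]
  exact (hK v).add (hK w)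

theorem Bof_isHermitian {K : Fin 2 → Fin 2 → M4} (hK : GPos K) (x : V4) :
    (Bof K x).IsHermitian := by
  obtain ⟨c, hc⟩ : ∃ c : ℝ, c = |x 0| + 1 + x 1 * x 1 + x 2 * x 2 + x 3 * x 3 := ⟨_, rfl⟩
  have h1 := mul_self_nonneg (x 1)
  have h2 := mul_self_nonneg (x 2)
  have h3 := mul_self_nonneg (x 3)
  have h4 := abs_nonneg (x 0)
  have h5 := neg_abs_le (x 0)
  have hc0 : 0 ≤ c := by rw [hc]; linarith
  have hcone : Cone (Pi.single 0 c : V4) := by
    refine ⟨by simpa using hc0, ?_⟩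
    unfold eta
    simp
    positivity
  have hcone2 : Cone (x + Pi.single 0 c) := by
    have e1 : (x + Pi.single 0 c : V4) 0 = x 0 + c := by simp
    have e2 : (x + Pi.single 0 c : V4) 1 = x 1 := by simp
    have e3 : (x + Pi.single 0 c : V4) 2 = x 2 := by simp
    have e4 : (x + Pi.single 0 c : V4) 3 = x 3 := by simp
    have h6 : 1 + (x 1 * x 1 + x 2 * x 2 + x 3 * x 3) ≤ x 0 + c := by rw [hc]; linarith
    refine ⟨by rw [e1]; linarith, ?_⟩
    unfold eta
    rw [e1, e2, e3, e4]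
    nlinarith
  have h6 := Bof_add K x (Pi.single 0 c)
  have h7 : Bof K x = Bof K (x + Pi.single 0 c) - Bof K (Pi.single 0 c) := by
    rw [h6, add_sub_cancel_right]
  rw [h7]
  exact (Bof_posSemidef hK hcone2).1.sub (Bof_posSemidef hK hcone).1

theorem Bof_posDef {K : Fin 2 → Fin 2 → M4} (hK : GPosS K) {x : V4} (hx : Cone x) (h0 : x ≠ 0) :
    (Bof K x).PosDef := by
  have hK' : GPos K := by
    intro v
    by_cases hv : v = 0
    · rw [hv, frm_two]
      simp only [Pi.zero_apply, mul_zero, zero_smul, add_zero]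
      exact Matrix.PosSemidef.zero
    · exact (hK v hv).posSemidef
  obtain ⟨v, w, h, hne⟩ := exists_decomp hx
  rw [h K]
  rcases hne h0 with hv | hw
  · exact (hK v hv).add_posSemidef (hK' w)
  · exact (hK w hw).posSemidef_add (hK' v)

theorem Bof_single (K : Fin 2 → Fin 2 → M4) (μ : Fin 4) : Bof K (Pi.single μ 1) = Bmat K μ := by
  unfold Bof
  rw [Finset.sum_eq_single μ]
  · simp
  · intro ν _ hν
    rw [Pi.single_eq_of_ne hν, Complex.ofReal_zero, zero_smul]
  · intro h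
    exact absurd (Finset.mem_univ _) h

theorem det_sysLin_two (K : Fin 2 → Fin 2 → M4) :
    (sysLin K).det = lin (Bmat K 0) * lin (Bmat K 0) -
      ∑ i : Fin 3, lin (Bmat K i.succ) * lin (Bmat K i.succ) := by
  have h00 : K 0 0 = Bmat K 0 + Bmat K 3 := by
    simp only [Bmat, if_true, show (3 : Fin 4) ≠ 0 by decide,
      show (3 : Fin 4) ≠ 1 by decide, show (3 : Fin 4) ≠ 2 by decide, if_false]
    module
  have h11 : K 1 1 = Bmat K 0 - Bmat K 3 := by
    simp only [Bmat, if_true, show (3 : Fin 4) ≠ 0 by decide,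
      show (3 : Fin 4) ≠ 1 by decide, show (3 : Fin 4) ≠ 2 by decide, if_false]
    module
  have h01 : K 0 1 = Bmat K 1 + Complex.I • Bmat K 2 := by
    simp only [Bmat, if_true, show (1 : Fin 4) ≠ 0 by decide, show (2 : Fin 4) ≠ 0 by decide,
      show (2 : Fin 4) ≠ 1 by decide, if_false, smul_smul]
    have : Complex.I * (-Complex.I / 2) = 1 / 2 := by
      linear_combination (-1 / 2 : ℂ) * Complex.I_mul_I
    rw [this]
    module
  have h10 : K 1 0 = Bmat K 1 - Complex.I • Bmat K 2 := by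
    simp only [Bmat, if_true, show (1 : Fin 4) ≠ 0 by decide, show (2 : Fin 4) ≠ 0 by decide,
      show (2 : Fin 4) ≠ 1 by decide, if_false, smul_smul]
    have : Complex.I * (-Complex.I / 2) = 1 / 2 := by
      linear_combination (-1 / 2 : ℂ) * Complex.I_mul_I
    rw [this]
    module
  have l00 : lin (K 0 0) = lin (Bmat K 0) + lin (Bmat K 3) := by
    conv_lhs => rw [h00]
    exact lin_add _ _
  have l11 : lin (K 1 1) = lin (Bmat K 0) - lin (Bmat K 3) := by
    conv_lhs => rw [h11]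
    rw [← linL_apply, map_sub]
    rfl
  have l01 : lin (K 0 1) = lin (Bmat K 1) + Complex.I • lin (Bmat K 2) := by
    conv_lhs => rw [h01]
    rw [lin_add, lin_smul]
  have l10 : lin (K 1 0) = lin (Bmat K 1) - Complex.I • lin (Bmat K 2) := by
    conv_lhs => rw [h10]
    rw [← linL_apply, map_sub, map_smul]
    rfl
  rw [Matrix.det_fin_two]
  simp only [sysLin, Matrix.of_apply]
  rw [l00, l11, l01, l10, Fin.sum_univ_three]
  have s0 : (0 : Fin 3).succ = (1 : Fin 4) := rfl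
  have s1 : (1 : Fin 3).succ = (2 : Fin 4) := rfl
  have s2 : (2 : Fin 3).succ = (3 : Fin 4) := rfl
  rw [s0, s1, s2]
  have hI : (Complex.I • lin (Bmat K 2)) * (Complex.I • lin (Bmat K 2)) =
      -(lin (Bmat K 2) * lin (Bmat K 2)) := by
    rw [smul_mul_smul_comm, Complex.I_mul_I, neg_one_smul]
  linear_combination hI

end Pool.Agent.Lib.GS4
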