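import Pool.Agent.Lib.MP_2e24f1_ag.Results
/-! MP_2e24f1_ag, orthogonal sums: definitions. -/

set_option autoImplicit false

open Matrix Pool.Agent.MP2e24f1
open scoped ComplexOrder

namespace Pool.Agent.Lib.GS4

/-- Complex matrices of size four. -/
abbrev M4 : Type := Matrix (Fin 4) (Fin 4) ℂ

/-- The mixed discriminant of four matrices of size four (times `4!`), real part. -/
noncomputable def TR (A B C D : M4) : ℝ := (topCoeff 4 (lin A * lin B * lin C * lin D)).re

/-- Four-vectors. -/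
abbrev V4 : Type := Fin 4 → ℝ

/-- The Lorentz form. -/
def eta (x y : V4) : ℝ := x 0 * y 0 - x 1 * y 1 - x 2 * y 2 - x 3 * y 3

/-- The closed forward cone. -/
def Cone (x : V4) : Prop := 0 ≤ x 0 ∧ 0 ≤ eta x x

/-- The matrix `B_μ` of a system of rank two. -/
noncomputable def Bmat (K : Fin 2 → Fin 2 → M4) (μ : Fin 4) : M4 :=
  if μ = 0 then (1 / 2 : ℂ) • (K 0 0 + K 1 1)
  else if μ = 1 then (1 / 2 : ℂ) • (K 0 1 + K 1 0)
  else if μ = 2 then (-Complex.I / 2) • (K 0 1 - K 1 0)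
  else (1 / 2 : ℂ) • (K 0 0 - K 1 1)

/-- The matrix `B(x) = ∑ x_μ B_μ` of a system of rank two. -/
noncomputable def Bof (K : Fin 2 → Fin 2 → M4) (x : V4) : M4 := ∑ μ, (x μ : ℂ) • Bmat K μ

/-- Block diagonal systems, the blocks being given by the labels `b`. -/
def BlockDiag {ι β κ : Type*} (b : ι → β) (K : ι → ι → Matrix κ κ ℂ) : Prop :=
  ∀ i j, b i ≠ b j → K i j = 0

end Pool.Agent.Lib.GS4
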