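import Pool.Agent.Lib.GS4.Defs
/-! MP_2e24f1_ag, row EE: the elementary symmetric function as a sum over all families of indices (pure matrix
algebra, any commutative ring).

Proof: Laplace expansion along the first row of the bordered determinants with rows `p, a` and columns
`q, a` gives the recursion of `Y * cc Y m`. -/

set_option autoImplicit false
set_option linter.unusedSectionVars false

open Matrix Pool.Agent.MP2e24f1
open scoped ComplexOrder

namespace Pool.Agent.Lib.GS4

section Private

variable {ι R : Type*} [Fintype ι] [DecidableEq ι] [CommRing R]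

/-- The principal sum. -/
private def FF (Y : Matrix ι ι R) (m : ℕ) : R := ∑ a : Fin m → ι, (Y.submatrix a a).det

/-- The bordered sums. -/
private def GG (Y : Matrix ι ι R) (m : ℕ) : Matrix ι ι R :=
  Matrix.of fun p q => ∑ a : Fin m → ι,
    (Y.submatrix (Fin.cons p a : Fin (m + 1) → ι) (Fin.cons q a)).det

omit [Fintype ι] [DecidableEq ι] in
private lemma rows_perm (Y : Matrix ι ι R) {m : ℕ} (k : Fin (m + 1)) (a c : Fin (m + 1) → ι) :
    (Y.submatrix a c).det = (-1) ^ (k : ℕ) *
      (Y.submatrix (Fin.cons (a k) (a ∘ k.succAbove) : Fin (m + 1) → ι) c).det := by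
  have h1 := Matrix.det_permute (Fin.cycleRange k)
    (Y.submatrix (Fin.cons (a k) (a ∘ k.succAbove) : Fin (m + 1) → ι) c)
  have h2 : (Y.submatrix (Fin.cons (a k) (a ∘ k.succAbove) : Fin (m + 1) → ι) c).submatrix
      (Fin.cycleRange k) id = Y.submatrix a c := by
    ext i j
    simp only [Matrix.submatrix_apply, id_eq]
    congr 1
    rcases Fin.eq_self_or_eq_succAbove k i with h | ⟨i', rfl⟩
    · subst h
      rw [Fin.cycleRange_self, Fin.cons_zero]
    · rw [Fin.cycleRange_succAbove, Fin.cons_succ]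
      rfl
  rw [h2, Fin.sign_cycleRange] at h1
  rw [h1]
  push_cast
  rfl

omit [Fintype ι] [DecidableEq ι] in
private lemma lap (Y : Matrix ι ι R) (m : ℕ) (p q : ι) (a : Fin (m + 1) → ι) :
    (Y.submatrix (Fin.cons p a : Fin (m + 1 + 1) → ι) (Fin.cons q a)).det =
      Y p q * (Y.submatrix a a).det - ∑ k : Fin (m + 1), Y p (a k) *
        (Y.submatrix (Fin.cons (a k) (a ∘ k.succAbove) : Fin (m + 1) → ι)
          (Fin.cons q (a ∘ k.succAbove))).det := by
  rw [Matrix.det_succ_row_zero, Fin.sum_univ_succ, sub_eq_add_neg, ← Finset.sum_neg_distrib]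
  congr 1
  · simp only [Fin.val_zero, pow_zero, one_mul, Matrix.submatrix_apply, Fin.cons_zero,
      Matrix.submatrix_submatrix]
    congr 2
  · refine Finset.sum_congr rfl fun k _ => ?_
    have h1 : ((Y.submatrix (Fin.cons p a : Fin (m + 1 + 1) → ι) (Fin.cons q a)).submatrix Fin.succ
        k.succ.succAbove) = Y.submatrix a (Fin.cons q (a ∘ k.succAbove)) := by
      ext i j
      simp only [Matrix.submatrix_apply, Fin.cons_succ]
      congr 1
      refine Fin.cases ?_ (fun j' => ?_) j
      · rw [Fin.succ_succAbove_zero, Fin.cons_zero, Fin.cons_zero]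
      · rw [Fin.succ_succAbove_succ, Fin.cons_succ, Fin.cons_succ]
        rfl
    rw [h1, rows_perm Y k a]
    simp only [Matrix.submatrix_apply, Fin.cons_zero, Fin.cons_succ, Fin.val_succ]
    have h2 : ((-1 : R) ^ (k : ℕ)) * (-1) ^ (k : ℕ) = 1 := by
      rw [← mul_pow]; simp
    rw [pow_succ]
    linear_combination (-(Y p (a k)) * (Y.submatrix
      (Fin.cons (a k) (a ∘ k.succAbove) : Fin (m + 1) → ι) (Fin.cons q (a ∘ k.succAbove))).det) * h2

omit [DecidableEq ι] in
private lemma sum_insert {m : ℕ} (k : Fin (m + 1)) (f : ι → (Fin m → ι) → R) :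
    ∑ a : Fin (m + 1) → ι, f (a k) (a ∘ k.succAbove) = ∑ r : ι, ∑ b : Fin m → ι, f r b := by
  rw [← Fintype.sum_prod_type', ← Equiv.sum_comp (Fin.insertNthEquiv (fun _ => ι) k)]
  refine Finset.sum_congr rfl fun x _ => ?_
  have h1 : (Fin.insertNthEquiv (fun _ => ι) k) x k = x.1 := by
    simp [Fin.insertNthEquiv]
  have h2 : (Fin.insertNthEquiv (fun _ => ι) k) x ∘ k.succAbove = x.2 := by
    ext j
    simp [Fin.insertNthEquiv]
  rw [h1, h2]

private lemma FF_succ (Y : Matrix ι ι R) (m : ℕ) : FF Y (m + 1) = (GG Y m).trace := by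
  unfold FF Matrix.trace GG
  simp only [Matrix.diag_apply, Matrix.of_apply]
  rw [← sum_insert (0 : Fin (m + 1))
    (fun r b => (Y.submatrix (Fin.cons r b : Fin (m + 1) → ι) (Fin.cons r b)).det)]
  refine Finset.sum_congr rfl fun a _ => ?_
  have h1 : (Fin.cons (a 0) (a ∘ (0 : Fin (m + 1)).succAbove) : Fin (m + 1) → ι) = a := by
    ext j
    refine Fin.cases ?_ (fun j' => ?_) j
    · rw [Fin.cons_zero]
    · rw [Fin.cons_succ]
      simp
  simp only [h1]

private lemma GG_succ (Y : Matrix ι ι R) (m : ℕ) :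
    GG Y (m + 1) = FF Y (m + 1) • Y - ((m : R) + 1) • (Y * GG Y m) := by
  ext p q
  simp only [Matrix.sub_apply, Matrix.smul_apply, Matrix.mul_apply, smul_eq_mul]
  have h1 : GG Y (m + 1) p q = ∑ a : Fin (m + 1) → ι,
      (Y p q * (Y.submatrix a a).det - ∑ k : Fin (m + 1), Y p (a k) *
        (Y.submatrix (Fin.cons (a k) (a ∘ k.succAbove) : Fin (m + 1) → ι)
          (Fin.cons q (a ∘ k.succAbove))).det) := by
    unfold GG
    rw [Matrix.of_apply]
    exact Finset.sum_congr rfl fun a _ => lap Y m p q a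
  rw [h1, Finset.sum_sub_distrib, ← Finset.mul_sum, Finset.sum_comm]
  have h2 : ∀ k : Fin (m + 1), ∑ a : Fin (m + 1) → ι, Y p (a k) *
      (Y.submatrix (Fin.cons (a k) (a ∘ k.succAbove) : Fin (m + 1) → ι)
        (Fin.cons q (a ∘ k.succAbove))).det = ∑ r, Y p r * GG Y m r q := by
    intro k
    rw [sum_insert k (fun r b => Y p r * (Y.submatrix (Fin.cons r b : Fin (m + 1) → ι)
      (Fin.cons q b)).det)]
    refine Finset.sum_congr rfl fun r _ => ?_
    unfold GG
    rw [Matrix.of_apply, Finset.mul_sum]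
  rw [Finset.sum_congr rfl fun k _ => h2 k, Finset.sum_const, Finset.card_univ, Fintype.card_fin]
  unfold FF
  rw [nsmul_eq_mul]
  push_cast
  ring

private lemma GG_eq (Y : Matrix ι ι R) (m : ℕ) :
    GG Y m = (m.factorial : R) • (Y * cc Y m) ∧ FF Y m = (m.factorial : R) * ee Y m := by
  have hstep : ∀ j : ℕ, GG Y j = (j.factorial : R) • (Y * cc Y j) →
      FF Y (j + 1) = ((j + 1).factorial : R) * ee Y (j + 1) := by
    intro j hj
    rw [FF_succ, hj, Matrix.trace_smul, trace_mul_cc, smul_eq_mul, Nat.factorial_succ]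
    push_cast
    ring
  induction m with
  | zero =>
    constructor
    · ext p q
      unfold GG
      rw [Matrix.of_apply, cc_zero, mul_one, Fintype.sum_unique]
      simp
    · unfold FF
      rw [Fintype.sum_unique, ee_zero]
      simp
  | succ m ih =>
    have h1 := hstep m ih.1
    refine ⟨?_, h1⟩
    rw [GG_succ, h1, ih.1, cc_succ, Matrix.mul_sub, Matrix.mul_smul, Matrix.mul_smul, mul_one,
      smul_sub, smul_smul, smul_smul, Nat.factorial_succ]
    congr 2
    push_cast
    ring

end Private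

theorem factorial_mul_ee {ι R : Type*} [Fintype ι] [DecidableEq ι] [CommRing R]
    (Y : Matrix ι ι R) (m : ℕ) :
    (m.factorial : R) * ee Y m = ∑ a : Fin m → ι, (Y.submatrix a a).det :=
  (GG_eq Y m).2.symm

end Pool.Agent.Lib.GS4
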