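import Pool.Agent.Lib.GS4.PB
import Pool.Agent.Lib.GS4.EE
/-! MP_2e24f1_ag, row EB: the fourth elementary symmetric function of a block diagonal system.

`24 ee (sysLin K) 4 = ∑ a, det ((sysLin K).submatrix a a)` (`factorial_mul_ee`). If `a` is not
injective the determinant is `0`. If `a` is injective, `fun i j => K (a i) (a j)` is a semipositive
system of rank four (`frm` of it at `v` is `frm K` at the push-forward of `v`; or `GPos.gram`), and
with `S = {i | b (a i) = b (a 0)}` one has `0 ∈ S`, `S ≠ univ` (a class has at most three elements):
`block_nonneg`. -/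

set_option autoImplicit false

open Matrix Pool.Agent.MP2e24f1
open scoped ComplexOrder

namespace Pool.Agent.Lib.GS4

private theorem gpos_comp {ι γ κ : Type*} [Fintype ι] [DecidableEq ι] [Fintype γ] [Fintype κ]
    {K : ι → ι → Matrix κ κ ℂ} (hK : GPos K) (a : γ → ι) : GPos (fun i j => K (a i) (a j)) := by
  intro v
  have h := hK (fun i => ∑ c, if a c = i then v c else 0)
  have e : frm (fun i j => K (a i) (a j)) v = frm K (fun i => ∑ c, if a c = i then v c else 0) := by
    unfold frm
    have e1 : ∀ i j, (star (∑ c, if a c = i then v c else 0) *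
        (∑ d, if a d = j then v d else 0)) • K i j =
        ∑ c, ∑ d, if a c = i then (if a d = j then (star (v c) * v d) • K i j else 0) else 0 := by
      intro i j
      rw [star_sum, Finset.sum_mul_sum, Finset.sum_smul]
      apply Finset.sum_congr rfl
      intro c _
      rw [Finset.sum_smul]
      apply Finset.sum_congr rfl
      intro d _
      by_cases h1 : a c = i
      · by_cases h2 : a d = j
        · simp [h1, h2]
        · simp [h1, h2]
      · simp [h1]
    simp only [e1]
    symm
    calc ∑ i, ∑ j, ∑ c, ∑ d, (if a c = i then (if a d = j then (star (v c) * v d) • K i j else 0)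
          else 0)
        = ∑ i, ∑ c, ∑ j, ∑ d, (if a c = i then (if a d = j then (star (v c) * v d) • K i j else 0)
          else 0) := by
          apply Finset.sum_congr rfl
          intro i _
          rw [Finset.sum_comm]
      _ = ∑ c, ∑ i, ∑ j, ∑ d, (if a c = i then (if a d = j then (star (v c) * v d) • K i j else 0)
          else 0) := by rw [Finset.sum_comm]
      _ = ∑ c, ∑ i, ∑ d, ∑ j, (if a c = i then (if a d = j then (star (v c) * v d) • K i j else 0)
          else 0) := by
          apply Finset.sum_congr rfl
          intro c _
          apply Finset.sum_congr rfl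
          intro i _
          rw [Finset.sum_comm]
      _ = ∑ c, ∑ d, ∑ i, ∑ j, (if a c = i then (if a d = j then (star (v c) * v d) • K i j else 0)
          else 0) := by
          apply Finset.sum_congr rfl
          intro c _
          rw [Finset.sum_comm]
      _ = _ := by
          apply Finset.sum_congr rfl
          intro c _
          apply Finset.sum_congr rfl
          intro d _
          rw [Finset.sum_eq_single (a c)]
          · simp
          · intro i _ hi
            simp [Ne.symm hi]
          · simp
  rw [e]
  exact h

theorem ee_four_nonneg {ι β : Type*} [Fintype ι] [DecidableEq ι] [DecidableEq β] (b : ι → β)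
    (hb : ∀ i, (Finset.univ.filter fun j => b j = b i).card ≤ 3)
    {K : ι → ι → M4} (hK : GPos K) (hd : BlockDiag b K) : 0 ≤ topCoeff 4 (ee (sysLin K) 4) := by
  have h24 : (24 : ℂ) * topCoeff 4 (ee (sysLin K) 4)
      = ∑ a : Fin 4 → ι, topCoeff 4 ((sysLin K).submatrix a a).det := by
    rw [← map_sum, ← factorial_mul_ee]
    have e : ((Nat.factorial 4 : ℕ) : PolyForms 4) * ee (sysLin K) 4
        = (24 : ℂ) • ee (sysLin K) 4 := by
      rw [show Nat.factorial 4 = 24 from rfl, MvPolynomial.smul_eq_C_mul]
      congr 1
    rw [e, map_smul, smul_eq_mul]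
  have hterm : ∀ a : Fin 4 → ι, 0 ≤ topCoeff 4 ((sysLin K).submatrix a a).det := by
    intro a
    by_cases ha : Function.Injective a
    · have e : (sysLin K).submatrix a a = sysLin (fun i j => K (a i) (a j)) := rfl
      rw [e]
      have h0 : (Finset.univ.filter fun i : Fin 4 => b (a i) = b (a 0)).Nonempty := ⟨0, by simp⟩
      refine block_nonneg (gpos_comp hK a) (Finset.univ.filter fun i => b (a i) = b (a 0)) h0 ?_ ?_
      · intro hu
        have h1 : (Finset.univ : Finset (Fin 4)).card ≤
            (Finset.univ.filter fun j => b j = b (a 0)).card := by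
          refine Finset.card_le_card_of_injOn a ?_ ha.injOn
          intro i hi
          have hi' : i ∈ Finset.univ.filter fun i : Fin 4 => b (a i) = b (a 0) := by
            rw [hu]; exact Finset.mem_univ i
          exact Finset.mem_filter.2 ⟨Finset.mem_univ _, (Finset.mem_filter.1 hi').2⟩
        have h2 := hb (a 0)
        rw [Finset.card_univ, Fintype.card_fin] at h1
        omega
      · intro i j hij
        apply hd
        simp only [Finset.mem_filter, Finset.mem_univ, true_and] at hij
        rcases hij with ⟨h1, h2⟩ | ⟨h1, h2⟩
        · intro h; exact h2 (h ▸ h1)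
        · intro h; exact h1 (h.trans h2)
    · rw [Function.Injective] at ha
      push Not at ha
      obtain ⟨i, j, hij, hne⟩ := ha
      rw [Matrix.det_zero_of_row_eq hne (by
        funext l
        rw [Matrix.submatrix_apply, Matrix.submatrix_apply, hij]), map_zero]
  have hsum : 0 ≤ (24 : ℂ) * topCoeff 4 (ee (sysLin K) 4) := by
    rw [h24]
    exact Finset.sum_nonneg fun a _ => hterm a
  have h3 : (0 : ℂ) ≤ 1 / 24 := by
    rw [Complex.nonneg_iff]
    norm_num
  have h4 := mul_nonneg h3 hsum
  have e : (1 / 24 : ℂ) * (24 * topCoeff 4 (ee (sysLin K) 4)) = topCoeff 4 (ee (sysLin K) 4) := by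
    ring
  rwa [e] at h4

end Pool.Agent.Lib.GS4
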