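import Pool.Agent.Lib.GS4.WB
/-! MP_2e24f1_ag, row SB: positivity of a Schur form of a block diagonal curvature.

Copy of `schur_positive` in `MP_2e24f1_ag/Final.lean`; the system to which `hcov` is applied is
`gauge K Qᴴ (H * Q)` with `Q` from `exists_whiten_block`, so it is block diagonal
(`Q`, `H`, `Θ` are; products of block diagonal matrices are block diagonal). -/

set_option autoImplicit false

open Matrix Pool.Agent.MP2e24f1
open scoped ComplexOrder

namespace Pool.Agent.Lib.GS4

private theorem mul_block {r : ℕ} {β : Type*} [DecidableEq β] (b : Fin r → β)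
    (A B : Matrix (Fin r) (Fin r) ℂ) (hA : ∀ a c, b a ≠ b c → A a c = 0)
    (hB : ∀ a c, b a ≠ b c → B a c = 0) : ∀ a c, b a ≠ b c → (A * B) a c = 0 := by
  intro a c hac
  rw [Matrix.mul_apply]
  apply Finset.sum_eq_zero
  intro e _
  by_cases h : b a = b e
  · rw [hB e c (by rw [← h]; exact hac), mul_zero]
  · rw [hA a e h, zero_mul]

private theorem gauge_blockDiag {r k : ℕ} {β : Type*} [DecidableEq β] (b : Fin r → β)
    (K : Fin r → Fin r → Matrix (Fin k) (Fin k) ℂ) (A B : Matrix (Fin r) (Fin r) ℂ)
    (hK : BlockDiag b K) (hA : ∀ a c, b a ≠ b c → A a c = 0)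
    (hB : ∀ a c, b a ≠ b c → B a c = 0) : BlockDiag b (gauge K A B) := by
  intro i j hij
  unfold Pool.Agent.MP2e24f1.gauge
  apply Finset.sum_eq_zero
  intro c _
  apply Finset.sum_eq_zero
  intro d _
  by_cases h1 : b i = b c
  · by_cases h2 : b d = b j
    · rw [hK c d (by rw [← h1, h2]; exact hij), smul_zero]
    · rw [hB d j h2, mul_zero, zero_smul]
  · rw [hA i c h1, zero_mul, zero_smul]

theorem schur_positive_block {d r k : ℕ} {β : Type*} [DecidableEq β] (b : Fin r → β)
    (Θ : Fin d → Fin d → Matrix (Fin r) (Fin r) ℂ)
    (H : Matrix (Fin r) (Fin r) ℂ) (hH : H.PosDef) (hHb : ∀ a c, b a ≠ b c → H a c = 0)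
    (hΘ : ∀ j l a c, b a ≠ b c → Θ j l a c = 0)
    (hG : ∀ (τ : Fin d → ℂ) (v : Fin r → ℂ),
      0 ≤ ∑ j, ∑ k, τ j * star (τ k) * (∑ a, ∑ b, ∑ c, v a * Θ j k a b * H b c * star (v c)))
    (σ : Fin k → ℕ) (hσ : ∑ i, σ i = k)
    (hcov : ∀ K : Fin r → Fin r → Matrix (Fin k) (Fin k) ℂ, GPos K → BlockDiag b K →
      0 ≤ topCoeff k (sdet (eZ (sysLin K)) σ)) (L : Matrix (Fin d) (Fin k) ℂ) :
    ∃ c : ℝ, 0 ≤ c ∧ pullback L (schurForm Θ σ) = (c : ℂ) • vol k := by
  obtain ⟨Q, hQ, hQH, hQb⟩ := exists_whiten_block b hH hHb
  let K : Fin r → Fin r → Matrix (Fin k) (Fin k) ℂ := fun a b => Lᵀ * KTheta Θ a b * L.map star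
  have hK : GPos (gauge K Qᴴ (H * Q)) := by
    intro v
    rw [frm_gauge]
    apply psd_of_nonneg
    intro x
    set q := Q *ᵥ v with hq
    have h1 := hG (fun j => ∑ p, L j p * star (x p)) (fun c => star (q c))
    have h2 : ∑ p, ∑ p', star (x p) * x p' *
        (∑ c, ∑ d, (star (q c) * (H *ᵥ q) d) • K c d) p p' =
        ∑ j, ∑ l, (∑ p, L j p * star (x p)) * star (∑ p, L l p * star (x p)) *
        (∑ a, ∑ b, ∑ c, star (q a) * Θ j l a b * H b c * star (star (q c))) := by
      have e1 : ∀ j l, (∑ a, ∑ b, ∑ c, star (q a) * Θ j l a b * H b c * star (star (q c))) =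
          ∑ a, ∑ b, star (q a) * (H *ᵥ q) b * Θ j l a b := by
        intro j l
        apply Finset.sum_congr rfl
        intro a _
        apply Finset.sum_congr rfl
        intro b _
        have : (H *ᵥ q) b = ∑ c, H b c * q c := rfl
        rw [this, Finset.mul_sum, Finset.sum_mul]
        apply Finset.sum_congr rfl
        intro c _
        rw [star_star]
        ring
      have e2 : ∀ p p', (∑ c, ∑ d, (star (q c) * (H *ᵥ q) d) • K c d) p p' =
          ∑ j, ∑ l, L j p * star (L l p') * (∑ a, ∑ b, star (q a) * (H *ᵥ q) b * Θ j l a b) := by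
        intro p p'
        have e3 : ∀ c d, (K c d) p p' = ∑ j, ∑ l, L j p * star (L l p') * Θ j l c d := by
          intro c d
          simp only [K, KTheta, Matrix.mul_apply, Matrix.transpose_apply, Matrix.of_apply,
            Matrix.map_apply, Finset.sum_mul]
          rw [Finset.sum_comm]
          apply Finset.sum_congr rfl
          intro j _
          apply Finset.sum_congr rfl
          intro l _
          ring
        simp only [Matrix.sum_apply, Matrix.smul_apply, smul_eq_mul, e3, Finset.mul_sum]
        calc ∑ a, ∑ b, ∑ j, ∑ l, star (q a) * (H *ᵥ q) b * (L j p * star (L l p') * Θ j l a b)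
            = ∑ a, ∑ j, ∑ b, ∑ l, star (q a) * (H *ᵥ q) b *
                (L j p * star (L l p') * Θ j l a b) := by
              apply Finset.sum_congr rfl
              intro a _
              rw [Finset.sum_comm]
          _ = ∑ j, ∑ a, ∑ b, ∑ l, star (q a) * (H *ᵥ q) b *
                (L j p * star (L l p') * Θ j l a b) := by rw [Finset.sum_comm]
          _ = ∑ j, ∑ a, ∑ l, ∑ b, star (q a) * (H *ᵥ q) b *
                (L j p * star (L l p') * Θ j l a b) := by
              apply Finset.sum_congr rfl
              intro j _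
              apply Finset.sum_congr rfl
              intro a _
              rw [Finset.sum_comm]
          _ = ∑ j, ∑ l, ∑ a, ∑ b, star (q a) * (H *ᵥ q) b *
                (L j p * star (L l p') * Θ j l a b) := by
              apply Finset.sum_congr rfl
              intro j _
              rw [Finset.sum_comm]
          _ = _ := by
              apply Finset.sum_congr rfl
              intro j _
              apply Finset.sum_congr rfl
              intro l _
              apply Finset.sum_congr rfl
              intro a _
              apply Finset.sum_congr rfl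
              intro b _
              ring
      simp only [e1, e2]
      generalize hT : (fun j l => ∑ a, ∑ b, star (q a) * (H *ᵥ q) b * Θ j l a b) = T
      have hT' : ∀ j l, ∑ a, ∑ b, star (q a) * (H *ᵥ q) b * Θ j l a b = T j l := by
        intro j l
        rw [← hT]
      simp only [hT', Finset.mul_sum]
      calc ∑ p, ∑ p', ∑ j, ∑ l, star (x p) * x p' * (L j p * star (L l p') * T j l)
          = ∑ p, ∑ j, ∑ p', ∑ l, star (x p) * x p' * (L j p * star (L l p') * T j l) := by
            apply Finset.sum_congr rfl
            intro p _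
            rw [Finset.sum_comm]
        _ = ∑ j, ∑ p, ∑ p', ∑ l, star (x p) * x p' * (L j p * star (L l p') * T j l) := by
            rw [Finset.sum_comm]
        _ = ∑ j, ∑ p, ∑ l, ∑ p', star (x p) * x p' * (L j p * star (L l p') * T j l) := by
            apply Finset.sum_congr rfl
            intro j _
            apply Finset.sum_congr rfl
            intro p _
            rw [Finset.sum_comm]
        _ = ∑ j, ∑ l, ∑ p, ∑ p', star (x p) * x p' * (L j p * star (L l p') * T j l) := by
            apply Finset.sum_congr rfl
            intro j _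
            rw [Finset.sum_comm]
        _ = _ := by
            apply Finset.sum_congr rfl
            intro j _
            apply Finset.sum_congr rfl
            intro l _
            rw [star_sum, Finset.sum_mul_sum, Finset.sum_mul]
            apply Finset.sum_congr rfl
            intro p _
            rw [Finset.sum_mul]
            apply Finset.sum_congr rfl
            intro p' _
            rw [star_mul', star_star]
            ring
    rw [h2]
    exact h1
  have hKb : BlockDiag b (gauge K Qᴴ (H * Q)) := by
    apply gauge_blockDiag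
    · intro i j hij
      have h : KTheta Θ i j = 0 := by
        ext p q
        exact hΘ p q i j hij
      simp only [K, h, Matrix.mul_zero, Matrix.zero_mul]
    · intro i j hij
      rw [Matrix.conjTranspose_apply, hQb j i (Ne.symm hij), star_zero]
    · exact mul_block b H Q hHb hQb
  have h3 := hcov _ hK hKb
  have h4 : eZ (sysLin (gauge K Qᴴ (H * Q))) = eZ (sysLin K) := by
    funext n
    apply eZ_gauge
    rw [← Matrix.mul_assoc]
    exact hQH
  rw [h4] at h3
  have h5 := Complex.nonneg_iff.mp h3
  refine ⟨Real.pi⁻¹ ^ k * (topCoeff k (sdet (eZ (sysLin K)) σ)).re, ?_, ?_⟩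
  · apply mul_nonneg
    · have := Real.pi_pos
      positivity
    · exact h5.1
  · rw [pullback_schurForm Θ σ hσ L]
    congr 1
    have h6 : (((topCoeff k (sdet (eZ (sysLin K)) σ)).re : ℝ) : ℂ) =
        topCoeff k (sdet (eZ (sysLin K)) σ) := by
      apply Complex.ext
      · simp
      · simpa using h5.2
    push_cast
    rw [h6]

end Pool.Agent.Lib.GS4
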