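import Pool.Agent.Lib.GS4.EB
import Pool.Agent.Lib.GS4.SB
import Pool.Agent.Lib.GS4.CB
/-! MP_2e24f1_ag, row FI: Schur forms of degree at most four of orthogonal sums.

`k ≤ 3`: `hooks_and_degree_three`. `k = 4`: use `positive_sum`; a single `σ ∈ Lam 4 r` is
antitone with sum `4`. If `σ 0 ≤ 2`: `parts_at_most_two` (with `T = {σ}`, `a = 1`) or
`schur_positive` and `cover_two`; if `σ 0 = 3`: `σ = (3, 1, 0, 0)`, `cover_hook`; if `σ 0 = 4`:
`σ = (4, 0, 0, 0)`, `sdet (eZ Y) σ` is upper triangular with diagonal `eZ 4, eZ 0, eZ 0, eZ 0`, so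
it is `ee Y 4` (`ee_zero`): `schur_positive_block`, `ee_four_nonneg`, `curvature_block`. -/

set_option autoImplicit false

open Matrix Pool.Agent.MP2e24f1
open scoped ComplexOrder

namespace Pool.Agent.Lib.GS4

private theorem sdet_four {ι R : Type*} [Fintype ι] [DecidableEq ι] [CommRing R]
    (Y : Matrix ι ι R) (σ : Fin 4 → ℕ) (h0 : σ 0 = 4) (h1 : σ 1 = 0) (h2 : σ 2 = 0)
    (h3 : σ 3 = 0) : sdet (eZ Y) σ = ee Y 4 := by
  unfold sdet
  rw [Matrix.det_of_isUpperTriangular]
  · rw [Fin.prod_univ_four]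
    simp only [Matrix.of_apply, h0, h1, h2, h3]
    have e4 : eZ Y (((4 : ℕ) : ℤ) - (((0 : Fin 4) : ℕ) : ℤ) + (((0 : Fin 4) : ℕ) : ℤ)) = ee Y 4 := by
      unfold eZ
      rw [if_pos (by decide)]
      congr 1
    have e0 : ∀ m : ℤ, m = 0 → eZ Y m = 1 := by
      intro m hm
      subst hm
      unfold eZ
      rw [if_pos le_rfl]
      exact ee_zero Y
    rw [e4, e0 _ (by decide), e0 _ (by decide), e0 _ (by decide)]
    ring
  · intro i j hij
    rw [Matrix.of_apply]
    have hneg : ∀ m : ℤ, m < 0 → eZ Y m = 0 := by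
      intro m hm
      unfold eZ
      rw [if_neg (not_le.mpr hm)]
    apply hneg
    have hij' : (j : ℕ) < (i : ℕ) := hij
    have hi : σ i = 0 := by
      fin_cases i
      · simp at hij'
      · exact h1
      · exact h2
      · exact h3
    rw [hi]
    push_cast
    omega

private theorem single_form {d k : ℕ} (F : (Fin k → ℕ) → Forms d) (σ : Fin k → ℕ)
    (h : IsPositiveForm k (∑ τ ∈ ({σ} : Finset (Fin k → ℕ)), (((fun _ => 1) τ : ℝ) : ℂ) • F τ)) :
    IsPositiveForm k (F σ) := by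
  rw [Finset.sum_singleton] at h
  simpa using h

theorem orthogonal_sums (d r k : ℕ) (U : Set (Fin d → ℂ))
    (h : (Fin d → ℂ) → Matrix (Fin r) (Fin r) ℂ) (hU : IsOpen U) (hh : IsHermitianMetric U h)
    (hG : ∀ x ∈ U, GriffithsSemipositiveAt h x) (b : Fin r → ℕ)
    (hb : ∀ x ∈ U, ∀ a c, b a ≠ b c → h x a c = 0)
    (hb3 : ∀ a, (Finset.univ.filter fun c => b c = b a).card ≤ 3) (hk : k ≤ 4)
    (T : Finset (Fin k → ℕ)) (a : (Fin k → ℕ) → ℝ)
    (hT : ∀ σ ∈ T, σ ∈ Lam k r ∧ 0 ≤ a σ) (x : Fin d → ℂ) (hx : x ∈ U) :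
    IsPositiveForm k (∑ σ ∈ T, (a σ : ℂ) • schurForm (curvature h x) σ) := by
  apply positive_sum T a _ (fun σ hσ => (hT σ hσ).2)
  intro σ hσ
  obtain ⟨hL, _⟩ := hT σ hσ
  rcases Nat.lt_or_ge k 4 with hk3 | hk4
  · apply single_form (fun τ => schurForm (curvature h x) τ)
    apply hooks_and_degree_three d r k U h hU hh hG {σ} (fun _ => 1) _ x hx
    intro τ hτ
    rw [Finset.mem_singleton] at hτ
    subst hτ
    exact ⟨hL, zero_le_one, Or.inl (by omega)⟩
  · have hk' : k = 4 := le_antisymm hk hk4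
    subst hk'
    have hsum : σ 0 + σ 1 + σ 2 + σ 3 = 4 := by
      have := hL.2.2
      rwa [Fin.sum_univ_four] at this
    have h01 : σ 1 ≤ σ 0 := hL.2.1 (by decide)
    have h12 : σ 2 ≤ σ 1 := hL.2.1 (by decide)
    have h23 : σ 3 ≤ σ 2 := hL.2.1 (by decide)
    rcases Nat.lt_or_ge (σ 0) 3 with h2 | h3
    · apply single_form (fun τ => schurForm (curvature h x) τ)
      apply parts_at_most_two d r 4 U h hU hh hG {σ} (fun _ => 1) _ x hx
      intro τ hτ
      rw [Finset.mem_singleton] at hτ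
      subst hτ
      refine ⟨hL, zero_le_one, ?_⟩
      intro i
      fin_cases i <;> simp <;> omega
    · rcases Nat.lt_or_ge (σ 0) 4 with h4 | h4
      · apply single_form (fun τ => schurForm (curvature h x) τ)
        apply hooks_and_degree_three d r 4 U h hU hh hG {σ} (fun _ => 1) _ x hx
        intro τ hτ
        rw [Finset.mem_singleton] at hτ
        subst hτ
        refine ⟨hL, zero_le_one, Or.inr ?_⟩
        intro i
        fin_cases i <;> simp <;> omega
      · have e0 : σ 0 = 4 := by omega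
        have e1 : σ 1 = 0 := by omega
        have e2 : σ 2 = 0 := by omega
        have e3 : σ 3 = 0 := by omega
        intro L _
        apply schur_positive_block b (curvature h x) (h x) (hh.pos x hx) (hb x hx)
          (fun j l a c hac => curvature_block b hU hh hb hx j l a c hac) (hG x hx) σ hL.2.2
        intro K hK hKb
        rw [sdet_four _ σ e0 e1 e2 e3]
        exact ee_four_nonneg b hb3 hK hKb

end Pool.Agent.Lib.GS4
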