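import Pool.Agent.Lib.GS4.Defs
/-! MP_2e24f1_ag, row LF: orthonormal frames of the Lorentz form.

`f i` = column `i + 1` of the boost `Λ = [[x₀, yᵀ], [y, 1 + y yᵀ / (1 + x₀)]]`, `x = (x₀, y)`, so
`f i = (y_i, e_i + y_i y / (1 + x₀))`. `Λ η Λᵀ = η` (as `x₀² = 1 + |y|²`) gives the last statement
(expand `β` in the standard basis). `x ± f i` is in the cone: `η(x ± f i, x ± f i) = 1 - 1 = 0`, and
`x₀ ± y_i > 0`. -/

set_option autoImplicit false

open Matrix Pool.Agent.MP2e24f1
open scoped ComplexOrder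

namespace Pool.Agent.Lib.GS4

private lemma lf_expand (β : V4 →ₗ[ℝ] V4 →ₗ[ℝ] ℝ) (u v : V4) :
    β u v = ∑ μ : Fin 4, ∑ ν : Fin 4, u μ * (v ν * β (Pi.single μ 1) (Pi.single ν 1)) := by
  have h1 : ∀ w : V4, w = ∑ μ : Fin 4, w μ • (Pi.single μ (1 : ℝ) : V4) := by
    intro w
    ext k
    rw [Finset.sum_apply, Finset.sum_eq_single k]
    · simp
    · intro b _ hb
      simp [hb.symm]
    · intro h
      exact absurd (Finset.mem_univ k) h
  have h2 : β u = ∑ μ : Fin 4, u μ • β (Pi.single μ 1) := by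
    conv_lhs => rw [h1 u]
    rw [map_sum]
    exact Finset.sum_congr rfl fun μ _ => map_smul _ _ _
  rw [h2, LinearMap.sum_apply]
  refine Finset.sum_congr rfl fun μ _ => ?_
  rw [LinearMap.smul_apply, smul_eq_mul, ← Finset.mul_sum]
  congr 1
  conv_lhs => rw [h1 v]
  rw [map_sum]
  exact Finset.sum_congr rfl fun ν _ => by rw [map_smul, smul_eq_mul]

private lemma lf_cone {x g : V4} (hx : eta x x = 1) (h0 : 0 < x 0) (hg : eta g g = -1)
    (hxg : eta x g = 0) (hg0 : g 0 ^ 2 ≤ x 0 ^ 2) : Cone (x + g) ∧ Cone (x - g) := by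
  have h1 : |g 0| ≤ x 0 := by
    rw [← abs_of_pos h0]
    exact sq_le_sq.1 hg0
  have h2 := abs_le.1 h1
  unfold Cone
  unfold eta at *
  simp only [Pi.add_apply, Pi.sub_apply]
  refine ⟨⟨by linarith, by linarith⟩, ⟨by linarith, by linarith⟩⟩

theorem frame (x : V4) (hx : eta x x = 1) (h0 : 0 < x 0) :
    ∃ f : Fin 3 → V4, (∀ i, eta x (f i) = 0) ∧ (∀ i, Cone (x + f i)) ∧ (∀ i, Cone (x - f i)) ∧
      ∀ β : V4 →ₗ[ℝ] V4 →ₗ[ℝ] ℝ,
        β (Pi.single 0 1) (Pi.single 0 1) -
          ∑ i : Fin 3, β (Pi.single i.succ 1) (Pi.single i.succ 1) =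
        β x x - ∑ i, β (f i) (f i) := by
  obtain ⟨a, ha⟩ : ∃ a, a = x 0 := ⟨_, rfl⟩
  obtain ⟨p, hp⟩ : ∃ p, p = x 1 := ⟨_, rfl⟩
  obtain ⟨q, hq⟩ : ∃ q, q = x 2 := ⟨_, rfl⟩
  obtain ⟨r, hr⟩ : ∃ r, r = x 3 := ⟨_, rfl⟩
  have h : a * a - p * p - q * q - r * r = 1 := by
    rw [ha, hp, hq, hr]
    exact hx
  have ha0 : 0 < a := by rw [ha]; exact h0
  obtain ⟨c, hc⟩ : ∃ c : ℝ, c * (1 + a) = 1 := ⟨(1 + a)⁻¹, inv_mul_cancel₀ (by linarith)⟩
  have hc2 : c * (p * p + q * q + r * r) = a - 1 := by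
    linear_combination (-c) * h + (a - 1) * hc
  obtain ⟨f0, hf0⟩ : ∃ f0 : V4, f0 = ![p, 1 + p * p * c, p * q * c, p * r * c] := ⟨_, rfl⟩
  obtain ⟨f1, hf1⟩ : ∃ f1 : V4, f1 = ![q, q * p * c, 1 + q * q * c, q * r * c] := ⟨_, rfl⟩
  obtain ⟨f2, hf2⟩ : ∃ f2 : V4, f2 = ![r, r * p * c, r * q * c, 1 + r * r * c] := ⟨_, rfl⟩
  have f00 : f0 0 = p := by rw [hf0]; rfl
  have f01 : f0 1 = 1 + p * p * c := by rw [hf0]; rfl
  have f02 : f0 2 = p * q * c := by rw [hf0]; rfl
  have f03 : f0 3 = p * r * c := by rw [hf0]; rfl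
  have f10 : f1 0 = q := by rw [hf1]; rfl
  have f11 : f1 1 = q * p * c := by rw [hf1]; rfl
  have f12 : f1 2 = 1 + q * q * c := by rw [hf1]; rfl
  have f13 : f1 3 = q * r * c := by rw [hf1]; rfl
  have f20 : f2 0 = r := by rw [hf2]; rfl
  have f21 : f2 1 = r * p * c := by rw [hf2]; rfl
  have f22 : f2 2 = r * q * c := by rw [hf2]; rfl
  have f23 : f2 3 = 1 + r * r * c := by rw [hf2]; rfl
  have e0 : eta x f0 = 0 := by
    unfold eta
    rw [f00, f01, f02, f03, ← ha, ← hp, ← hq, ← hr]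
    linear_combination (-p) * hc2
  have e1 : eta x f1 = 0 := by
    unfold eta
    rw [f10, f11, f12, f13, ← ha, ← hp, ← hq, ← hr]
    linear_combination (-q) * hc2
  have e2 : eta x f2 = 0 := by
    unfold eta
    rw [f20, f21, f22, f23, ← ha, ← hp, ← hq, ← hr]
    linear_combination (-r) * hc2
  have g0 : eta f0 f0 = -1 := by
    unfold eta
    rw [f00, f01, f02, f03]
    linear_combination (-(p * p * c)) * hc2 - (p * p) * hc
  have g1 : eta f1 f1 = -1 := by
    unfold eta
    rw [f10, f11, f12, f13]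
    linear_combination (-(q * q * c)) * hc2 - (q * q) * hc
  have g2 : eta f2 f2 = -1 := by
    unfold eta
    rw [f20, f21, f22, f23]
    linear_combination (-(r * r * c)) * hc2 - (r * r) * hc
  have c0 := lf_cone hx h0 g0 e0 (by
    rw [f00, ← ha]
    nlinarith [mul_self_nonneg q, mul_self_nonneg r])
  have c1 := lf_cone hx h0 g1 e1 (by
    rw [f10, ← ha]
    nlinarith [mul_self_nonneg p, mul_self_nonneg r])
  have c2 := lf_cone hx h0 g2 e2 (by
    rw [f20, ← ha]
    nlinarith [mul_self_nonneg p, mul_self_nonneg q])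
  refine ⟨![f0, f1, f2], ?_, ?_, ?_, ?_⟩
  · intro i
    fin_cases i
    · exact e0
    · exact e1
    · exact e2
  · intro i
    fin_cases i
    · exact c0.1
    · exact c1.1
    · exact c2.1
  · intro i
    fin_cases i
    · exact c0.2
    · exact c1.2
    · exact c2.2
  · intro β
    have hs1 : ∑ i : Fin 3, β (Pi.single i.succ 1) (Pi.single i.succ 1) =
        β (Pi.single 1 1) (Pi.single 1 1) + β (Pi.single 2 1) (Pi.single 2 1) +
          β (Pi.single 3 1) (Pi.single 3 1) := by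
      rw [Fin.sum_univ_three]
      rfl
    have hs2 : ∑ i : Fin 3, β ((![f0, f1, f2] : Fin 3 → V4) i) ((![f0, f1, f2] : Fin 3 → V4) i) =
        β f0 f0 + β f1 f1 + β f2 f2 := by
      rw [Fin.sum_univ_three]
      rfl
    rw [hs1, hs2, lf_expand β x x, lf_expand β f0 f0, lf_expand β f1 f1, lf_expand β f2 f2]
    simp only [Fin.sum_univ_four]
    rw [f00, f01, f02, f03, f10, f11, f12, f13, f20, f21, f22, f23, ← ha, ← hp, ← hq, ← hr]
    have k00 : a * a - (p * p + q * q + r * r) = 1 := by linear_combination h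
    have k01 : a * p - (p * (1 + p * p * c) + q * (q * p * c) + r * (r * p * c)) = 0 := by
      linear_combination (-p) * hc2
    have k02 : a * q - (p * (p * q * c) + q * (1 + q * q * c) + r * (r * q * c)) = 0 := by
      linear_combination (-q) * hc2
    have k03 : a * r - (p * (p * r * c) + q * (q * r * c) + r * (1 + r * r * c)) = 0 := by
      linear_combination (-r) * hc2
    have k11 : p * p - ((1 + p * p * c) * (1 + p * p * c) + (q * p * c) * (q * p * c) +
        (r * p * c) * (r * p * c)) = -1 := by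
      linear_combination (-(p * p * c)) * hc2 - (p * p) * hc
    have k22 : q * q - ((p * q * c) * (p * q * c) + (1 + q * q * c) * (1 + q * q * c) +
        (r * q * c) * (r * q * c)) = -1 := by
      linear_combination (-(q * q * c)) * hc2 - (q * q) * hc
    have k33 : r * r - ((p * r * c) * (p * r * c) + (q * r * c) * (q * r * c) +
        (1 + r * r * c) * (1 + r * r * c)) = -1 := by
      linear_combination (-(r * r * c)) * hc2 - (r * r) * hc
    have k12 : p * q - ((1 + p * p * c) * (p * q * c) + (q * p * c) * (1 + q * q * c) +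
        (r * p * c) * (r * q * c)) = 0 := by
      linear_combination (-(p * q * c)) * hc2 - (p * q) * hc
    have k13 : p * r - ((1 + p * p * c) * (p * r * c) + (q * p * c) * (q * r * c) +
        (r * p * c) * (1 + r * r * c)) = 0 := by
      linear_combination (-(p * r * c)) * hc2 - (p * r) * hc
    have k23 : q * r - ((p * q * c) * (p * r * c) + (1 + q * q * c) * (q * r * c) +
        (r * q * c) * (1 + r * r * c)) = 0 := by
      linear_combination (-(q * r * c)) * hc2 - (q * r) * hc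
    generalize β (Pi.single 0 1) (Pi.single 0 1) = b00
    generalize β (Pi.single 0 1) (Pi.single 1 1) = b01
    generalize β (Pi.single 0 1) (Pi.single 2 1) = b02
    generalize β (Pi.single 0 1) (Pi.single 3 1) = b03
    generalize β (Pi.single 1 1) (Pi.single 0 1) = b10
    generalize β (Pi.single 1 1) (Pi.single 1 1) = b11
    generalize β (Pi.single 1 1) (Pi.single 2 1) = b12
    generalize β (Pi.single 1 1) (Pi.single 3 1) = b13
    generalize β (Pi.single 2 1) (Pi.single 0 1) = b20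
    generalize β (Pi.single 2 1) (Pi.single 1 1) = b21
    generalize β (Pi.single 2 1) (Pi.single 2 1) = b22
    generalize β (Pi.single 2 1) (Pi.single 3 1) = b23
    generalize β (Pi.single 3 1) (Pi.single 0 1) = b30
    generalize β (Pi.single 3 1) (Pi.single 1 1) = b31
    generalize β (Pi.single 3 1) (Pi.single 2 1) = b32
    generalize β (Pi.single 3 1) (Pi.single 3 1) = b33
    linear_combination (-b00) * k00 - (b01 + b10) * k01 - (b02 + b20) * k02 - (b03 + b30) * k03 -
      b11 * k11 - b22 * k22 - b33 * k33 - (b12 + b21) * k12 - (b13 + b31) * k13 -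
      (b23 + b32) * k23

end Pool.Agent.Lib.GS4
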