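import Pool.Agent.Lib.GS4.Defs
/-! MP_2e24f1_ag, row MN: a minimizer of `p(x, x, y, y) / (η(x, x) η(y, y))` (only analysis in `ℝ⁴ × ℝ⁴`).

The function `η(x, x) η(y, y) / p(x, x, y, y)` is continuous on the compact set of the pairs
`x, y ∈ Cone`, `x 0 = y 0 = 1`; it is positive at `x = y = (1, 0, 0, 0)` and `0` where
`η(x, x) η(y, y) = 0`; take a maximum. By homogeneity it is a maximum over all pairs in the open
cones. Scale `x`, `y` to `η = 1`. For every `v` the quadratic polynomial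
`t ↦ p(x + t v, x + t v, y, y) - p(x, x, y, y) η(x + t v, x + t v)` is nonnegative near `t = 0` and
`0` at `t = 0`, so its linear coefficient vanishes. The same for `y`. -/

set_option autoImplicit false

open Matrix Pool.Agent.MP2e24f1
open scoped ComplexOrder

namespace Pool.Agent.Lib.GS4

private lemma expand4 (p : V4 →ₗ[ℝ] V4 →ₗ[ℝ] V4 →ₗ[ℝ] V4 →ₗ[ℝ] ℝ) (a b c d : V4) :
    p a b c d = ∑ i, ∑ j, ∑ k, ∑ l, a i * (b j * (c k * (d l *
      p (fun m => if i = m then 1 else 0) (fun m => if j = m then 1 else 0)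
        (fun m => if k = m then 1 else 0) (fun m => if l = m then 1 else 0)))) := by
  have h1 := LinearMap.pi_apply_eq_sum_univ p a
  rw [h1]
  simp only [LinearMap.sum_apply, LinearMap.smul_apply, smul_eq_mul]
  refine Finset.sum_congr rfl (fun i _ => ?_)
  have h2 := LinearMap.pi_apply_eq_sum_univ (p (fun m => if i = m then 1 else 0)) b
  rw [h2]
  simp only [LinearMap.sum_apply, LinearMap.smul_apply, smul_eq_mul, Finset.mul_sum]
  refine Finset.sum_congr rfl (fun j _ => ?_)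
  have h3 := LinearMap.pi_apply_eq_sum_univ
    (p (fun m => if i = m then 1 else 0) (fun m => if j = m then 1 else 0)) c
  rw [h3]
  simp only [LinearMap.sum_apply, LinearMap.smul_apply, smul_eq_mul, Finset.mul_sum]
  refine Finset.sum_congr rfl (fun k _ => ?_)
  have h4 := LinearMap.pi_apply_eq_sum_univ
    (p (fun m => if i = m then 1 else 0) (fun m => if j = m then 1 else 0)
      (fun m => if k = m then 1 else 0)) d
  rw [h4]
  simp only [smul_eq_mul, Finset.mul_sum]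

private lemma cont_p (p : V4 →ₗ[ℝ] V4 →ₗ[ℝ] V4 →ₗ[ℝ] V4 →ₗ[ℝ] ℝ) :
    Continuous (fun z : V4 × V4 => p z.1 z.1 z.2 z.2) := by
  have : (fun z : V4 × V4 => p z.1 z.1 z.2 z.2) = fun z : V4 × V4 =>
      ∑ i, ∑ j, ∑ k, ∑ l, z.1 i * (z.1 j * (z.2 k * (z.2 l *
      p (fun m => if i = m then 1 else 0) (fun m => if j = m then 1 else 0)
        (fun m => if k = m then 1 else 0) (fun m => if l = m then 1 else 0)))) := by
    funext z
    exact expand4 p _ _ _ _
  rw [this]
  fun_prop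

private lemma eta_add_smul (x v : V4) (t : ℝ) :
    eta (x + t • v) (x + t • v) = eta x x + 2 * t * eta x v + t ^ 2 * eta v v := by
  simp only [eta, Pi.add_apply, Pi.smul_apply, smul_eq_mul]
  ring

private lemma eta_smul (x : V4) (c : ℝ) : eta (c • x) (c • x) = c ^ 2 * eta x x := by
  simp only [eta, Pi.smul_apply, smul_eq_mul]
  ring

/-- a quadratic polynomial `2 t a + t² b` which is nonnegative near `0` has `a = 0`. -/
private lemma lin_zero {a b : ℝ} (h : ∀ᶠ t in nhds (0 : ℝ), 0 ≤ 2 * t * a + t ^ 2 * b) : a = 0 := by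
  rw [Metric.eventually_nhds_iff] at h
  obtain ⟨ε, hε, h⟩ := h
  by_contra ha
  have hapos : 0 < |a| := abs_pos.2 ha
  -- take t = - s * sign a, s small
  set s : ℝ := min (ε / 2) (|a| / (|b| + 1)) with hs
  have hb1 : 0 < |b| + 1 := by positivity
  have hs0 : 0 < s := lt_min (by positivity) (by positivity)
  have hse : s < ε := lt_of_le_of_lt (min_le_left _ _) (by linarith)
  have hsb : s * (|b| + 1) ≤ |a| := by
    have := min_le_right (ε / 2) (|a| / (|b| + 1))
    calc s * (|b| + 1) ≤ |a| / (|b| + 1) * (|b| + 1) := by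
          exact mul_le_mul_of_nonneg_right this hb1.le
      _ = |a| := by field_simp
  have hbb : b ≤ |b| := le_abs_self b
  rcases abs_cases a with ⟨he, hpos⟩ | ⟨he, hneg⟩
  · have h1 := h (y := -s) (by rw [Real.dist_eq, sub_zero, abs_neg, abs_of_pos hs0]; exact hse)
    have h2 : (-s) ^ 2 * b ≤ s * (s * |b|) := by nlinarith [mul_pos hs0 hs0]
    have h3 : s * (s * |b|) ≤ s * (|a| - s) := by
      apply mul_le_mul_of_nonneg_left _ hs0.le
      nlinarith
    nlinarith [mul_pos hs0 hapos, mul_pos hs0 hs0]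
  · have h1 := h (y := s) (by rw [Real.dist_eq, sub_zero, abs_of_pos hs0]; exact hse)
    have h2 : s ^ 2 * b ≤ s * (s * |b|) := by nlinarith [mul_pos hs0 hs0]
    have h3 : s * (s * |b|) ≤ s * (|a| - s) := by
      apply mul_le_mul_of_nonneg_left _ hs0.le
      nlinarith
    nlinarith [mul_pos hs0 hapos, mul_pos hs0 hs0]

theorem minimizer (p : V4 →ₗ[ℝ] V4 →ₗ[ℝ] V4 →ₗ[ℝ] V4 →ₗ[ℝ] ℝ)
    (h12 : ∀ x x' y y', p x x' y y' = p x' x y y') (h34 : ∀ x x' y y', p x x' y y' = p x x' y' y)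
    (hpos : ∀ x y, Cone x → x ≠ 0 → Cone y → y ≠ 0 → 0 < p x x y y) :
    ∃ x y : V4, eta x x = 1 ∧ 0 < x 0 ∧ eta y y = 1 ∧ 0 < y 0 ∧
      (∀ v, p x v y y = p x x y y * eta x v) ∧ (∀ v, p x x y v = p x x y y * eta y v) := by
  classical
  -- the compact set
  set K : Set (V4 × V4) := {z | z.1 0 = 1 ∧ z.2 0 = 1 ∧ 0 ≤ eta z.1 z.1 ∧ 0 ≤ eta z.2 z.2} with hK
  have hcont_eta1 : Continuous (fun z : V4 × V4 => eta z.1 z.1) := by
    unfold eta; fun_prop
  have hcont_eta2 : Continuous (fun z : V4 × V4 => eta z.2 z.2) := by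
    unfold eta; fun_prop
  have hbox : ∀ x : V4, x 0 = 1 → 0 ≤ eta x x → x ∈ Set.Icc (fun _ : Fin 4 => (-1 : ℝ)) (fun _ => 1) := by
    intro x h0 h1
    have h2 : x 1 ^ 2 + x 2 ^ 2 + x 3 ^ 2 ≤ 1 := by
      unfold eta at h1
      rw [h0] at h1
      nlinarith
    rw [Set.mem_Icc, Pi.le_def, Pi.le_def]
    constructor
    · intro i
      fin_cases i
      · simp [h0]
      · simp only []; simp; nlinarith [sq_nonneg (x 1), sq_nonneg (x 2), sq_nonneg (x 3)]
      · simp only []; simp; nlinarith [sq_nonneg (x 1), sq_nonneg (x 2), sq_nonneg (x 3)]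
      · simp only []; simp; nlinarith [sq_nonneg (x 1), sq_nonneg (x 2), sq_nonneg (x 3)]
    · intro i
      fin_cases i
      · simp [h0]
      · simp only []; simp; nlinarith [sq_nonneg (x 1), sq_nonneg (x 2), sq_nonneg (x 3)]
      · simp only []; simp; nlinarith [sq_nonneg (x 1), sq_nonneg (x 2), sq_nonneg (x 3)]
      · simp only []; simp; nlinarith [sq_nonneg (x 1), sq_nonneg (x 2), sq_nonneg (x 3)]
  have hKc : IsCompact K := by
    have hcl : IsClosed K := by
      have e1 : IsClosed {z : V4 × V4 | z.1 0 = 1} := isClosed_eq (by fun_prop) continuous_const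
      have e2 : IsClosed {z : V4 × V4 | z.2 0 = 1} := isClosed_eq (by fun_prop) continuous_const
      have e3 : IsClosed {z : V4 × V4 | 0 ≤ eta z.1 z.1} := isClosed_le continuous_const hcont_eta1
      have e4 : IsClosed {z : V4 × V4 | 0 ≤ eta z.2 z.2} := isClosed_le continuous_const hcont_eta2
      have : K = {z : V4 × V4 | z.1 0 = 1} ∩ ({z : V4 × V4 | z.2 0 = 1} ∩
          ({z : V4 × V4 | 0 ≤ eta z.1 z.1} ∩ {z : V4 × V4 | 0 ≤ eta z.2 z.2})) := by
        ext z; simp [hK]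
      rw [this]
      exact e1.inter (e2.inter (e3.inter e4))
    have hbig : IsCompact ((Set.Icc (fun _ : Fin 4 => (-1 : ℝ)) (fun _ => 1)) ×ˢ
        (Set.Icc (fun _ : Fin 4 => (-1 : ℝ)) (fun _ => 1))) := isCompact_Icc.prod isCompact_Icc
    refine hbig.of_isClosed_subset hcl ?_
    rintro ⟨x, y⟩ ⟨h1, h2, h3, h4⟩
    exact ⟨hbox x h1 h3, hbox y h2 h4⟩
  have hppos : ∀ z ∈ K, 0 < p z.1 z.1 z.2 z.2 := by
    rintro ⟨x, y⟩ ⟨h1, h2, h3, h4⟩
    refine hpos x y ⟨?_, h3⟩ ?_ ⟨?_, h4⟩ ?_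
    · simp only at h1; rw [h1]; norm_num
    · intro h; simp only at h1; rw [h] at h1; simp at h1
    · simp only at h2; rw [h2]; norm_num
    · intro h; simp only at h2; rw [h] at h2; simp at h2
  set f : V4 × V4 → ℝ := fun z => eta z.1 z.1 * eta z.2 z.2 / p z.1 z.1 z.2 z.2 with hf
  have hfc : ContinuousOn f K := by
    refine ContinuousOn.div ?_ (cont_p p).continuousOn (fun z hz => (hppos z hz).ne')
    exact (hcont_eta1.mul hcont_eta2).continuousOn
  set e0 : V4 := fun i => if i = 0 then 1 else 0 with he0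
  have heta0 : eta e0 e0 = 1 := by simp [eta, he0]
  have hmem0 : (e0, e0) ∈ K := ⟨by simp [he0], by simp [he0], by simp [heta0], by simp [heta0]⟩
  obtain ⟨z, hz, hmax⟩ := hKc.exists_isMaxOn ⟨_, hmem0⟩ hfc
  obtain ⟨x₁, y₁⟩ := z
  obtain ⟨hx0, hy0, hx1, hy1⟩ := hz
  simp only at hx0 hy0 hx1 hy1
  have hp1 : 0 < p x₁ x₁ y₁ y₁ := hppos (x₁, y₁) ⟨hx0, hy0, hx1, hy1⟩
  have hfpos : 0 < f (x₁, y₁) := by
    have h1 := hmax hmem0
    have h2 : 0 < f (e0, e0) := by
      simp only [hf, heta0]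
      have := hppos _ hmem0
      simp only at this
      positivity
    exact lt_of_lt_of_le h2 h1
  have hprod : 0 < eta x₁ x₁ * eta y₁ y₁ := by
    by_contra hcon
    push Not at hcon
    have : f (x₁, y₁) ≤ 0 := div_nonpos_of_nonpos_of_nonneg hcon hp1.le
    linarith
  have hex : 0 < eta x₁ x₁ := by
    rcases hx1.eq_or_lt with h | h
    · rw [← h, zero_mul] at hprod; exact absurd hprod (lt_irrefl _)
    · exact h
  have hey : 0 < eta y₁ y₁ := by
    rcases hy1.eq_or_lt with h | h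
    · rw [← h, mul_zero] at hprod; exact absurd hprod (lt_irrefl _)
    · exact h
  -- inequality for all pairs in the open cones
  have hhom : ∀ (c d : ℝ) (x y : V4), p (c • x) (c • x) (d • y) (d • y) = c ^ 2 * d ^ 2 * p x x y y := by
    intro c d x y
    simp only [map_smul, LinearMap.smul_apply, smul_eq_mul]
    ring
  have hineq : ∀ x y : V4, 0 < x 0 → 0 ≤ eta x x → 0 < y 0 → 0 ≤ eta y y →
      eta x x * eta y y * p x₁ x₁ y₁ y₁ ≤ eta x₁ x₁ * eta y₁ y₁ * p x x y y := by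
    intro x y hx hxx hy hyy
    have hmem : ((x 0)⁻¹ • x, (y 0)⁻¹ • y) ∈ K := by
      refine ⟨?_, ?_, ?_, ?_⟩
      · simp [hx.ne']
      · simp [hy.ne']
      · simp only [eta_smul]; positivity
      · simp only [eta_smul]; positivity
    have h1 := hmax hmem
    have h2 := hppos _ hmem
    simp only at h2
    simp only [hf, Set.mem_ofPred_eq, eta_smul, hhom] at h1
    rw [hhom] at h2
    rw [div_le_div_iff₀ h2 hp1] at h1
    have h3 : 0 < (x 0)⁻¹ ^ 2 * (y 0)⁻¹ ^ 2 := by positivity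
    have h4 : (x 0)⁻¹ ^ 2 * (y 0)⁻¹ ^ 2 * (eta x x * eta y y * p x₁ x₁ y₁ y₁)
        ≤ (x 0)⁻¹ ^ 2 * (y 0)⁻¹ ^ 2 * (eta x₁ x₁ * eta y₁ y₁ * p x x y y) := by
      nlinarith [h1]
    exact le_of_mul_le_mul_left h4 h3
  -- scaling
  set a : ℝ := (Real.sqrt (eta x₁ x₁))⁻¹ with ha
  set b : ℝ := (Real.sqrt (eta y₁ y₁))⁻¹ with hb
  have ha0 : 0 < a := by rw [ha]; positivity
  have hb0 : 0 < b := by rw [hb]; positivity
  have ha2 : a ^ 2 * eta x₁ x₁ = 1 := by
    rw [ha, inv_pow, Real.sq_sqrt hex.le, inv_mul_cancel₀ hex.ne']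
  have hb2 : b ^ 2 * eta y₁ y₁ = 1 := by
    rw [hb, inv_pow, Real.sq_sqrt hey.le, inv_mul_cancel₀ hey.ne']
  set x : V4 := a • x₁ with hxdef
  set y : V4 := b • y₁ with hydef
  have hxx : eta x x = 1 := by rw [hxdef, eta_smul, ha2]
  have hyy : eta y y = 1 := by rw [hydef, eta_smul, hb2]
  have hx0' : 0 < x 0 := by simp [hxdef, hx0, ha0]
  have hy0' : 0 < y 0 := by simp [hydef, hy0, hb0]
  have hineq2 : ∀ x' y' : V4, 0 < x' 0 → 0 ≤ eta x' x' → 0 < y' 0 → 0 ≤ eta y' y' →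
      p x x y y * (eta x' x' * eta y' y') ≤ p x' x' y' y' := by
    intro x' y' h1 h2 h3 h4
    have h5 := hineq x' y' h1 h2 h3 h4
    have h6 : p x x y y = a ^ 2 * b ^ 2 * p x₁ x₁ y₁ y₁ := hhom a b x₁ y₁
    rw [h6]
    have h7 : a ^ 2 * b ^ 2 * (eta x' x' * eta y' y' * p x₁ x₁ y₁ y₁)
        ≤ a ^ 2 * b ^ 2 * (eta x₁ x₁ * eta y₁ y₁ * p x' x' y' y') :=
      mul_le_mul_of_nonneg_left h5 (by positivity)
    have h8 : a ^ 2 * b ^ 2 * (eta x₁ x₁ * eta y₁ y₁ * p x' x' y' y') = p x' x' y' y' := by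
      calc a ^ 2 * b ^ 2 * (eta x₁ x₁ * eta y₁ y₁ * p x' x' y' y')
          = (a ^ 2 * eta x₁ x₁) * (b ^ 2 * eta y₁ y₁) * p x' x' y' y' := by ring
        _ = p x' x' y' y' := by rw [ha2, hb2]; ring
    linarith
  have hev : ∀ w v : V4, 0 < w 0 → eta w w = 1 →
      ∀ᶠ t in nhds (0 : ℝ), 0 < (w + t • v) 0 ∧ 0 ≤ eta (w + t • v) (w + t • v) := by
    intro w v h1 h2
    have c1 : Continuous (fun t : ℝ => (w + t • v) 0) := by
      simp only [Pi.add_apply, Pi.smul_apply, smul_eq_mul]; fun_prop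
    have c2 : Continuous (fun t : ℝ => eta (w + t • v) (w + t • v)) := by
      simp only [eta_add_smul]; fun_prop
    have t1 : ∀ᶠ t in nhds (0 : ℝ), 0 < (w + t • v) 0 :=
      c1.tendsto 0 |>.eventually (lt_mem_nhds (by simpa using h1))
    have t2 : ∀ᶠ t in nhds (0 : ℝ), 0 < eta (w + t • v) (w + t • v) :=
      c2.tendsto 0 |>.eventually (lt_mem_nhds (by simp [h2]))
    filter_upwards [t1, t2] with t h3 h4
    exact ⟨h3, h4.le⟩
  refine ⟨x, y, hxx, hx0', hyy, hy0', ?_, ?_⟩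
  · intro v
    have h := hev x v hx0' hxx
    have h2 : ∀ᶠ t in nhds (0 : ℝ), 0 ≤ 2 * t * (p x v y y - p x x y y * eta x v)
        + t ^ 2 * (p v v y y - p x x y y * eta v v) := by
      filter_upwards [h] with t ht
      have h3 := hineq2 (x + t • v) y ht.1 ht.2 hy0' (by rw [hyy]; norm_num)
      rw [eta_add_smul, hxx, hyy] at h3
      simp only [map_add, map_smul, LinearMap.add_apply, LinearMap.smul_apply, smul_eq_mul] at h3
      rw [h12 v x y y] at h3
      nlinarith [h3]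
    have := lin_zero h2
    linarith
  · intro v
    have h := hev y v hy0' hyy
    have h2 : ∀ᶠ t in nhds (0 : ℝ), 0 ≤ 2 * t * (p x x y v - p x x y y * eta y v)
        + t ^ 2 * (p x x v v - p x x y y * eta v v) := by
      filter_upwards [h] with t ht
      have h3 := hineq2 x (y + t • v) hx0' (by rw [hxx]; norm_num) ht.1 ht.2
      rw [eta_add_smul, hxx, hyy] at h3
      simp only [map_add, map_smul, LinearMap.add_apply, LinearMap.smul_apply, smul_eq_mul] at h3
      rw [h34 x x v y] at h3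
      nlinarith [h3]
    have := lin_zero h2
    linarith

end Pool.Agent.Lib.GS4
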