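import Pool.Agent.Lib.GS4.Defs
/-! MP_2e24f1_ag, row NU: the numerical inequality (Mathlib only).

Suppose `9 ga < -1 - 3 s`, `s = al + be`. If `s ≥ 2/3` then `hV1` gives `ga ≥ s - 1`, a
contradiction. Let `q = 2 - 3 s ∈ (0, 2]`. Then `1 - s + ga < 4 q / 9`, so `|de| < q / 9`,
`|e1|, |e2| < 2 q / 9`. Adding `hC1`, `hC2` (with `al, be ≥ 0`):
`e1² + e2² ≥ - s - 2 ga > q / 9`, so `8 q² / 81 > q / 9`, `q > 9 / 8`. But
`e1² + e2² ≤ (2 q / 9) (|e1| + |e2|) ≤ (2 q / 9) (s + 2 q² / 81)`, so `1 / 2 < s + 2 q² / 81`, that is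
`4 q² - 54 q + 27 > 0`, which is false for `9 / 8 < q ≤ 2`. -/

set_option autoImplicit false

open Matrix Pool.Agent.MP2e24f1
open scoped ComplexOrder

namespace Pool.Agent.Lib.GS4

theorem numeric (al be ga de e1 e2 : ℝ) (hal : 0 ≤ al) (hbe : 0 ≤ be)
    (hV1 : 4 * |de| ≤ 1 - (al + be) + ga) (hV2 : 2 * |e1| ≤ 1 - (al + be) + ga)
    (hV3 : 2 * |e2| ≤ 1 - (al + be) + ga) (hA1 : |e1| ≤ al + de ^ 2) (hA2 : |e2| ≤ be + de ^ 2)
    (hC1 : (1 + be) * (-al - ga) ≤ e2 ^ 2) (hC2 : (1 + al) * (-be - ga) ≤ e1 ^ 2) :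
    0 ≤ 1 + 3 * (al + be) + 9 * ga := by
  by_contra hneg
  have hneg' : 1 + 3 * (al + be) + 9 * ga < 0 := not_le.mp hneg
  have hd0 : 0 ≤ |de| := abs_nonneg de
  have h10 : 0 ≤ |e1| := abs_nonneg e1
  have h20 : 0 ≤ |e2| := abs_nonneg e2
  have hga : (al + be) - 1 ≤ ga := by linarith
  have hs : al + be < 2 / 3 := by linarith
  have hq0 : 0 < 2 - 3 * (al + be) := by linarith
  have hde : |de| < (2 - 3 * (al + be)) / 9 := by linarith
  have he1 : |e1| < 2 * (2 - 3 * (al + be)) / 9 := by linarith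
  have he2 : |e2| < 2 * (2 - 3 * (al + be)) / 9 := by linarith
  have hs0 : 0 ≤ al + be := by linarith
  -- the sum of the two last hypotheses
  have hsum : (2 - 3 * (al + be)) / 9 < e1 ^ 2 + e2 ^ 2 := by
    have h1 : (al + be) * (1 / 9 + (al + be) / 3) ≤ (al + be) * (-ga) :=
      mul_le_mul_of_nonneg_left (by linarith) hs0
    have h2 : 2 * (al * be) ≤ (al + be) ^ 2 / 2 := by nlinarith [sq_nonneg (al - be)]
    have h3 : 0 ≤ (al + be) * (1 / 9 - (al + be) / 6) :=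
      mul_nonneg hs0 (by linarith)
    nlinarith
  have hsq1 : e1 ^ 2 = |e1| * |e1| := by rw [← sq, sq_abs]
  have hsq2 : e2 ^ 2 = |e2| * |e2| := by rw [← sq, sq_abs]
  have hsqd : de ^ 2 = |de| * |de| := by rw [← sq, sq_abs]
  rw [hsqd] at hA1 hA2
  rw [hsq1, hsq2] at hsum
  obtain ⟨q, hq⟩ : ∃ q : ℝ, q = 2 - 3 * (al + be) := ⟨_, rfl⟩
  rw [← hq] at hsum hq0 hde he1 he2
  have hdd : |de| * |de| ≤ q / 9 * (q / 9) :=
    mul_le_mul hde.le hde.le hd0 (by positivity)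
  have h11 : |e1| * |e1| ≤ 2 * q / 9 * |e1| := mul_le_mul_of_nonneg_right he1.le h10
  have h22 : |e2| * |e2| ≤ 2 * q / 9 * |e2| := mul_le_mul_of_nonneg_right he2.le h20
  -- first bound
  have hq98 : 9 / 8 < q := by
    have h1 : 2 * q / 9 * |e1| ≤ 2 * q / 9 * (2 * q / 9) :=
      mul_le_mul_of_nonneg_left he1.le (by positivity)
    have h2 : 2 * q / 9 * |e2| ≤ 2 * q / 9 * (2 * q / 9) :=
      mul_le_mul_of_nonneg_left he2.le (by positivity)
    have h3 : q * (1 / 9) < q * (8 * q / 81) := by nlinarith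
    have h4 := lt_of_mul_lt_mul_left h3 hq0.le
    linarith
  have hq2 : q ≤ 2 := by linarith
  have hfin : q * (1 / 9) < q * (2 / 9 * ((2 - q) / 3 + 2 * (q / 9 * (q / 9)))) := by
    have h1 : 2 * q / 9 * (|e1| + |e2|) ≤ 2 * q / 9 * ((al + be) + 2 * (q / 9 * (q / 9))) :=
      mul_le_mul_of_nonneg_left (by linarith) (by positivity)
    have h2 : al + be = (2 - q) / 3 := by linarith
    rw [h2] at h1
    nlinarith
  have h5 := lt_of_mul_lt_mul_left hfin hq0.le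
  nlinarith

end Pool.Agent.Lib.GS4
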