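import Pool.Agent.Lib.GS4.TB
/-! MP_2e24f1_ag, row PB: systems of rank four with two blocks.

`det` is the product of the determinants of the two blocks (`Matrix.twoBlockTriangular_det` or
`Matrix.det_fromBlocks_zero₂₁` after reindexing). If one block is `{i}`: `lin (K i i)` times the
determinant of a system of rank three; use `peel_step` (with `sub_det_sysLin`, `res_det_sysLin`,
`GPos.conj`, `GPos.submatrix`, `det_sysLin_homogeneous`) and `main3` for `k = 3`
(`frm K (Pi.single i 1) = K i i` is positive semidefinite). If both blocks have two elements: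
`two_nonneg'`. -/

set_option autoImplicit false

open Matrix Pool.Agent.MP2e24f1
open scoped ComplexOrder

namespace Pool.Agent.Lib.GS4

private theorem pb_gpos_comp {ι ι' κ : Type*} [Fintype ι] [Fintype ι'] [Fintype κ]
    {K : ι → ι → Matrix κ κ ℂ} (hK : GPos K) (e : ι' → ι) (he : Function.Injective e) :
    GPos (fun a b => K (e a) (e b)) := by
  classical
  intro v
  have h := hK (Function.extend e v 0)
  have h0 : ∀ i, i ∉ Set.range e → Function.extend e v 0 i = 0 := by
    intro i hi
    rw [Function.extend_apply' _ _ _ (by rintro ⟨a, ha⟩; exact hi ⟨a, ha⟩)]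
    rfl
  have e1 : frm (fun a b => K (e a) (e b)) v = frm K (Function.extend e v 0) := by
    unfold frm
    apply Fintype.sum_of_injective e he
    · intro i hi
      rw [h0 i hi]
      simp
    · intro a
      apply Fintype.sum_of_injective e he
      · intro i hi
        rw [h0 i hi]
        simp
      · intro b
        rw [he.extend_apply, he.extend_apply]
  rw [e1]
  exact h

private theorem pb_sub {k : ℕ} (p : Fin 4 → Prop) (f : Fintype {i // p i})
    (g : DecidableEq {i // p i}) (K : Fin 4 → Fin 4 → M4) (e : Fin k ≃ {i // p i}) :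
    ((sysLin K).toSquareBlockProp p).det = (sysLin (fun a b => K (e a) (e b))).det := by
  rw [← Matrix.det_submatrix_equiv_self e ((sysLin K).toSquareBlockProp p)]
  exact congrArg Matrix.det (by ext a b : 1; rfl)

private theorem pb_det {k l : ℕ} (K : Fin 4 → Fin 4 → M4) (S : Finset (Fin 4))
    (hS : ∀ i j, (i ∈ S ∧ j ∉ S) ∨ (i ∉ S ∧ j ∈ S) → K i j = 0)
    (e₁ : Fin k ≃ {i // i ∈ S}) (e₂ : Fin l ≃ {i // ¬ i ∈ S}) :
    (sysLin K).det = (sysLin (fun a b => K (e₁ a) (e₁ b))).det *
      (sysLin (fun a b => K (e₂ a) (e₂ b))).det := by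
  rw [Matrix.twoBlockTriangular_det (sysLin K) (fun i => i ∈ S)]
  · exact congrArg₂ (fun x y => x * y) (pb_sub (fun i => i ∈ S) _ _ K e₁)
      (pb_sub (fun i => ¬ i ∈ S) _ _ K e₂)
  · intro i hi j hj
    have h := hS i j (Or.inr ⟨hi, hj⟩)
    show lin (K i j) = 0
    rw [h]
    unfold lin
    simp

private theorem pb_one_three {K : Fin 1 → Fin 1 → M4} {K' : Fin 3 → Fin 3 → M4} (hK : GPos K)
    (hK' : GPos K') : 0 ≤ topCoeff 4 ((sysLin K).det * (sysLin K').det) := by
  have h1 : (sysLin K).det = lin (K 0 0) := by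
    rw [Matrix.det_fin_one]
    rfl
  have h2 : (K 0 0).PosSemidef := by
    have h := hK (fun _ => 1)
    have e1 : frm K (fun _ => 1) = K 0 0 := by
      unfold frm
      simp
    rwa [e1] at h
  rw [h1]
  apply peel_step h2
  · have h := det_sysLin_homogeneous K'
    rwa [Fintype.card_fin] at h
  · intro U s
    rw [sub_det_sysLin, res_det_sysLin]
    have h := main3 3 (by rw [Fintype.card_fin])
      (fun a b => (Uᴴ * K' a b * U).submatrix s.succAbove s.succAbove)
      ((hK'.conj U).submatrix _)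
    rwa [pow_one] at h

theorem block_nonneg {K : Fin 4 → Fin 4 → M4} (hK : GPos K) (S : Finset (Fin 4))
    (h0 : S.Nonempty) (h1 : S ≠ Finset.univ)
    (hS : ∀ i j, (i ∈ S ∧ j ∉ S) ∨ (i ∉ S ∧ j ∈ S) → K i j = 0) :
    0 ≤ topCoeff 4 (sysLin K).det := by
  have hc1 : 0 < S.card := h0.card_pos
  have hc2 : S.card < 4 := by
    have h := (Finset.card_lt_iff_ne_univ S).2 h1
    simpa using h
  have hcard1 : Fintype.card {i // i ∈ S} = S.card := Fintype.card_coe S
  have hcard2 : Fintype.card {i // ¬ i ∈ S} = 4 - S.card := by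
    rw [Fintype.card_subtype_compl, hcard1, Fintype.card_fin]
  obtain ⟨k, hk⟩ : ∃ k, S.card = k := ⟨_, rfl⟩
  rw [hk] at hc1 hc2 hcard1 hcard2
  have e₁ : Fin k ≃ {i // i ∈ S} := (Fintype.equivFinOfCardEq hcard1).symm
  have e₂ : Fin (4 - k) ≃ {i // ¬ i ∈ S} := (Fintype.equivFinOfCardEq hcard2).symm
  have g1 := pb_gpos_comp hK (fun a => ((e₁ a : {i // i ∈ S}) : Fin 4))
    (fun a b hab => e₁.injective (Subtype.ext hab))
  have g2 := pb_gpos_comp hK (fun a => ((e₂ a : {i // ¬ i ∈ S}) : Fin 4))
    (fun a b hab => e₂.injective (Subtype.ext hab))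
  rw [pb_det K S hS e₁ e₂]
  interval_cases k
  · exact pb_one_three g1 g2
  · exact two_nonneg' g1 g2
  · rw [mul_comm]
    exact pb_one_three g2 g1

end Pool.Agent.Lib.GS4
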