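import Pool.Agent.Lib.GS4.AF
import Pool.Agent.Lib.GS4.NU
/-! MP_2e24f1_ag, row PW: the pointwise inequality.

Divide by `D0 = TR B B C C > 0` and apply `numeric` with `al = - TR R R C C / D0`,
`be = - TR B B S S / D0`, `ga = TR R R S S / D0`, `de = TR B R C S / D0`, `e1 = TR R R C S / D0`,
`e2 = TR B R S S / D0`. `hV`: `TR (B + r R) (B + r R) (C + t S) (C + t S) ≥ 0` for `r, t = ±1`,
expanded it is `1 - al - be + ga + 4 r t de + 2 t e1 + 2 r e2 ≥ 0`; add two of them.
`AF` for `(B, R; C, C)` gives `al ≥ 0`, for `(B, R; C, C ± S)` gives `|e1| ≤ al + de²`, for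
`(B, R; C + S, C - S)` gives `e2² ≥ (1 + be) (- al - ga)`; symmetrically with `(C, S; B, B)`,
`(C, S; B, B ± R)`, `(C, S; B + R, B - R)`. (`B` and `C` are positive semidefinite as means of
`B ± R`, `C ± S`.) -/

set_option autoImplicit false

open Matrix Pool.Agent.MP2e24f1
open scoped ComplexOrder

namespace Pool.Agent.Lib.GS4

private lemma TR_add2 (A B B' C D : M4) : TR A (B + B') C D = TR A B C D + TR A B' C D := by
  rw [TR_swap12, TR_add, TR_swap12 B, TR_swap12 B']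

private lemma TR_add3 (A B C C' D : M4) : TR A B (C + C') D = TR A B C D + TR A B C' D := by
  rw [TR_swap23, TR_add2, TR_swap23 A C, TR_swap23 A C']

private lemma TR_add4 (A B C D D' : M4) : TR A B C (D + D') = TR A B C D + TR A B C D' := by
  rw [TR_swap34, TR_add3, TR_swap34 A B D, TR_swap34 A B D']

private lemma TR_neg (A B C D : M4) : TR (-A) B C D = - TR A B C D := by
  have h := TR_smul (-1) A B C D
  have h2 : (((-1 : ℝ) : ℂ) • A) = -A := by simp
  rw [h2] at h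
  linarith

private lemma TR_sub1 (A A' B C D : M4) : TR (A - A') B C D = TR A B C D - TR A' B C D := by
  rw [sub_eq_add_neg, TR_add, TR_neg]; ring

private lemma TR_sub2 (A B B' C D : M4) : TR A (B - B') C D = TR A B C D - TR A B' C D := by
  rw [TR_swap12, TR_sub1, TR_swap12 B, TR_swap12 B']

private lemma TR_sub3 (A B C C' D : M4) : TR A B (C - C') D = TR A B C D - TR A B C' D := by
  rw [TR_swap23, TR_sub2, TR_swap23 A C, TR_swap23 A C']

private lemma TR_sub4 (A B C D D' : M4) : TR A B C (D - D') = TR A B C D - TR A B C D' := by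
  rw [TR_swap34, TR_sub3, TR_swap34 A B D, TR_swap34 A B D']

private lemma TR_flip (A B C D : M4) : TR A B C D = TR C D A B := by
  rw [TR_swap23, TR_swap12, TR_swap34, TR_swap23]

private lemma half_psd {X Y : M4} (h1 : (X + Y).PosSemidef) (h2 : (X - Y).PosSemidef) :
    X.PosSemidef := by
  have h := (h1.add h2).smul (a := (1 / 2 : ℂ)) (by
    have : (0 : ℂ) ≤ ((1 / 2 : ℝ) : ℂ) := by
      exact_mod_cast (by norm_num : (0 : ℝ) ≤ 1 / 2)
    simp)
  have e : (1 / 2 : ℂ) • (X + Y + (X - Y)) = X := by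
    have : X + Y + (X - Y) = (2 : ℂ) • X := by
      rw [two_smul]; abel
    rw [this, smul_smul]
    norm_num
  rwa [e] at h

private lemma numeric_scaled (D a b g d x y : ℝ) (hD : 0 < D)
    (v1 : 0 ≤ D + a + b + g + 4 * d + 2 * x + 2 * y)
    (v2 : 0 ≤ D + a + b + g - 4 * d - 2 * x + 2 * y)
    (v3 : 0 ≤ D + a + b + g - 4 * d + 2 * x - 2 * y)
    (v4 : 0 ≤ D + a + b + g + 4 * d - 2 * x - 2 * y)
    (a0 : D * a ≤ 0) (a1 : D * (a + x) ≤ d ^ 2) (a2 : D * (a - x) ≤ d ^ 2)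
    (a3 : (D - b) * (a - g) ≤ y ^ 2)
    (b0 : D * b ≤ 0) (b1 : D * (b + y) ≤ d ^ 2) (b2 : D * (b - y) ≤ d ^ 2)
    (b3 : (D - a) * (b - g) ≤ x ^ 2) :
    0 ≤ D - 3 * a - 3 * b + 9 * g := by
  have hD' : D ≠ 0 := hD.ne'
  obtain ⟨a, rfl⟩ : ∃ a', a = D * a' := ⟨a / D, by field_simp⟩
  obtain ⟨b, rfl⟩ : ∃ a', b = D * a' := ⟨b / D, by field_simp⟩
  obtain ⟨g, rfl⟩ : ∃ a', g = D * a' := ⟨g / D, by field_simp⟩
  obtain ⟨d, rfl⟩ : ∃ a', d = D * a' := ⟨d / D, by field_simp⟩
  obtain ⟨x, rfl⟩ : ∃ a', x = D * a' := ⟨x / D, by field_simp⟩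
  obtain ⟨y, rfl⟩ : ∃ a', y = D * a' := ⟨y / D, by field_simp⟩
  have hDD : 0 < D * D := mul_pos hD hD
  have w1 : 0 ≤ 1 + a + b + g + 4 * d + 2 * x + 2 * y := by
    refine nonneg_of_mul_nonneg_right (a := D) ?_ hD
    nlinarith
  have w2 : 0 ≤ 1 + a + b + g - 4 * d - 2 * x + 2 * y := by
    refine nonneg_of_mul_nonneg_right (a := D) ?_ hD
    nlinarith
  have w3 : 0 ≤ 1 + a + b + g - 4 * d + 2 * x - 2 * y := by
    refine nonneg_of_mul_nonneg_right (a := D) ?_ hD
    nlinarith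
  have w4 : 0 ≤ 1 + a + b + g + 4 * d - 2 * x - 2 * y := by
    refine nonneg_of_mul_nonneg_right (a := D) ?_ hD
    nlinarith
  have c0 : 0 ≤ - a := by
    refine nonneg_of_mul_nonneg_right (a := D * D) ?_ hDD
    nlinarith
  have c1 : 0 ≤ d ^ 2 - (a + x) := by
    refine nonneg_of_mul_nonneg_right (a := D * D) ?_ hDD
    nlinarith
  have c2 : 0 ≤ d ^ 2 - (a - x) := by
    refine nonneg_of_mul_nonneg_right (a := D * D) ?_ hDD
    nlinarith
  have c3 : 0 ≤ y ^ 2 - (1 - b) * (a - g) := by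
    refine nonneg_of_mul_nonneg_right (a := D * D) ?_ hDD
    nlinarith
  have e0 : 0 ≤ - b := by
    refine nonneg_of_mul_nonneg_right (a := D * D) ?_ hDD
    nlinarith
  have e1 : 0 ≤ d ^ 2 - (b + y) := by
    refine nonneg_of_mul_nonneg_right (a := D * D) ?_ hDD
    nlinarith
  have e2 : 0 ≤ d ^ 2 - (b - y) := by
    refine nonneg_of_mul_nonneg_right (a := D * D) ?_ hDD
    nlinarith
  have e3 : 0 ≤ x ^ 2 - (1 - a) * (b - g) := by
    refine nonneg_of_mul_nonneg_right (a := D * D) ?_ hDD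
    nlinarith
  have key := numeric (-a) (-b) g d x y c0 e0
    (by
      rcases abs_cases d with ⟨h, _⟩ | ⟨h, _⟩ <;> rw [h] <;> linarith)
    (by
      rcases abs_cases x with ⟨h, _⟩ | ⟨h, _⟩ <;> rw [h] <;> linarith)
    (by
      rcases abs_cases y with ⟨h, _⟩ | ⟨h, _⟩ <;> rw [h] <;> linarith)
    (by
      rcases abs_cases x with ⟨h, _⟩ | ⟨h, _⟩ <;> rw [h] <;> linarith)
    (by
      rcases abs_cases y with ⟨h, _⟩ | ⟨h, _⟩ <;> rw [h] <;> linarith)
    (by nlinarith) (by nlinarith)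
  have e : D - 3 * (D * a) - 3 * (D * b) + 9 * (D * g)
      = D * (1 + 3 * (-a + -b) + 9 * g) := by ring
  rw [e]
  exact mul_nonneg hD.le key

theorem pointwise {B R C S : M4} (hR : R.IsHermitian) (hS : S.IsHermitian)
    (hB1 : (B + R).PosSemidef) (hB2 : (B - R).PosSemidef)
    (hC1 : (C + S).PosSemidef) (hC2 : (C - S).PosSemidef) (h0 : 0 < TR B B C C)
    (h1 : TR B R C C = 0) (h2 : TR B B C S = 0) :
    0 ≤ TR B B C C - 3 * TR R R C C - 3 * TR B B S S + 9 * TR R R S S := by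
  have hB : B.PosSemidef := half_psd hB1 hB2
  have hC : C.PosSemidef := half_psd hC1 hC2
  -- symmetric values
  have s1 : TR R B C C = 0 := by rw [TR_swap12]; exact h1
  have s2 : TR B B S C = 0 := by rw [TR_swap34]; exact h2
  have s3 : TR R B C S = TR B R C S := TR_swap12 _ _ _ _
  have s4 : TR R B S C = TR B R C S := by rw [TR_swap12, TR_swap34]
  have s5 : TR B R S C = TR B R C S := TR_swap34 _ _ _ _
  have s6 : TR R R S C = TR R R C S := TR_swap34 _ _ _ _
  have s7 : TR R B S S = TR B R S S := TR_swap12 _ _ _ _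
  -- the four corners
  have v1 := TR_nonneg hB1 hB1 hC1 hC1
  have v2 := TR_nonneg hB1 hB1 hC2 hC2
  have v3 := TR_nonneg hB2 hB2 hC1 hC1
  have v4 := TR_nonneg hB2 hB2 hC2 hC2
  simp only [TR_add, TR_add2, TR_add3, TR_add4, TR_sub1, TR_sub2, TR_sub3, TR_sub4, s1, s2, s3, s4,
    s5, s6, s7, h1, h2] at v1 v2 v3 v4
  -- Alexandrov-Fenchel
  have a0 := AF hB hR hC hC
  have a1 := AF hB hR hC hC1
  have a2 := AF hB hR hC hC2
  have a3 := AF hB hR hC1 hC2
  have b0 := AF hC hS hB hB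
  have b1 := AF hC hS hB hB1
  have b2 := AF hC hS hB hB2
  have b3 := AF hC hS hB1 hB2
  have t1 : TR C C B B = TR B B C C := TR_flip _ _ _ _
  have t2 : TR S S B B = TR B B S S := TR_flip _ _ _ _
  have t3 : TR C S B B = 0 := by rw [TR_flip]; exact h2
  have t4 : TR C C B R = 0 := by rw [TR_flip]; exact h1
  have t5 : TR C C R B = 0 := by rw [TR_flip]; exact s1
  have t6 : TR S S B R = TR B R S S := TR_flip _ _ _ _
  have t7 : TR S S R B = TR B R S S := by rw [TR_flip]; exact s7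
  have t8 : TR C S B R = TR B R C S := TR_flip _ _ _ _
  have t9 : TR C S R B = TR B R C S := by rw [TR_flip]; exact s3
  have t10 : TR C C R R = TR R R C C := TR_flip _ _ _ _
  have t11 : TR S S R R = TR R R S S := TR_flip _ _ _ _
  have t12 : TR C S R R = TR R R C S := TR_flip _ _ _ _
  simp only [TR_add3, TR_add4, TR_sub4, s2, s5, s6, h1, h2, t1, t2, t3, t4, t5, t6, t7, t8, t9,
    t10, t11, t12] at a0 a1 a2 a3 b0 b1 b2 b3
  have key := numeric_scaled (TR B B C C) (TR R R C C) (TR B B S S) (TR R R S S) (TR B R C S)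
    (TR R R C S) (TR B R S S) h0 (by linarith) (by linarith) (by linarith) (by linarith)
    (by linarith [a0]) (by linarith [a1]) (by linarith [a2]) (by linarith [a3])
    (by linarith [b0]) (by linarith [b1]) (by linarith [b2]) (by linarith [b3])
  linarith

end Pool.Agent.Lib.GS4
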