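import Pool.Agent.Lib.GS4.PW
import Pool.Agent.Lib.GS4.MN
import Pool.Agent.Lib.GS4.LF
import Pool.Agent.Lib.GS4.CV
/-! MP_2e24f1_ag, row TA: two strictly positive systems of rank two.

Let `p x x' y y' = TR (Bof K x) (Bof K x') (Bof K' y) (Bof K' y')` (build it as a linear map with
`LinearMap.mk₂` or from `TR_add`, `TR_smul`, `TR_swap…`; `Bof` is linear in `x`). By `TR_pos` and
`Bof_posDef` it satisfies `minimizer`; take the frames `f`, `g` at `x`, `y` of `frame`. For `i, j`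
apply `pointwise` with `B = Bof K x`, `R = Bof K (f i)`, `C = Bof K' y`, `S = Bof K' (g j)`
(`p x (f i) y y = p x x y y * eta x (f i) = 0`). The sum over the nine pairs, divided by `9`, is
`p x x y y - ∑ i, p (f i) (f i) y y - ∑ j, p x x (g j) (g j) + ∑ ∑ p (f i) (f i) (g j) (g j)`; by the
last statement of `frame` (twice) it equals the same expression for the standard basis, which is
`topCoeff 4 (det * det)` by `det_sysLin_two`, `TR_im`. -/

set_option autoImplicit false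

open Matrix Pool.Agent.MP2e24f1
open scoped ComplexOrder

namespace Pool.Agent.Lib.GS4

private lemma ta_Bof_add (K : Fin 2 → Fin 2 → M4) (x y : V4) :
    Bof K (x + y) = Bof K x + Bof K y := by
  unfold Bof
  rw [← Finset.sum_add_distrib]
  refine Finset.sum_congr rfl (fun μ _ => ?_)
  rw [Pi.add_apply, Complex.ofReal_add, add_smul]

private lemma ta_Bof_smul (K : Fin 2 → Fin 2 → M4) (c : ℝ) (x : V4) :
    Bof K (c • x) = (c : ℂ) • Bof K x := by
  unfold Bof
  rw [Finset.smul_sum]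
  refine Finset.sum_congr rfl (fun μ _ => ?_)
  rw [Pi.smul_apply, smul_eq_mul, Complex.ofReal_mul, mul_smul]

private lemma ta_Bof_sub (K : Fin 2 → Fin 2 → M4) (x y : V4) :
    Bof K (x - y) = Bof K x - Bof K y := by
  have h : x - y = x + (-1 : ℝ) • y := by rw [neg_one_smul, sub_eq_add_neg]
  rw [h, ta_Bof_add, ta_Bof_smul]
  simp [sub_eq_add_neg]

private lemma ta_add2 (A B B' C D : M4) : TR A (B + B') C D = TR A B C D + TR A B' C D := by
  rw [TR_swap12 A (B + B'), TR_add, TR_swap12 B A, TR_swap12 B' A]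

private lemma ta_add3 (A B C C' D : M4) : TR A B (C + C') D = TR A B C D + TR A B C' D := by
  rw [TR_swap23 A B (C + C'), ta_add2, TR_swap23 A C B, TR_swap23 A C' B]

private lemma ta_add4 (A B C D D' : M4) : TR A B C (D + D') = TR A B C D + TR A B C D' := by
  rw [TR_swap34 A B C (D + D'), ta_add3, TR_swap34 A B D C, TR_swap34 A B D' C]

private lemma ta_smul2 (c : ℝ) (A B C D : M4) : TR A ((c : ℂ) • B) C D = c * TR A B C D := by
  rw [TR_swap12 A ((c : ℂ) • B), TR_smul, TR_swap12 B A]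

private lemma ta_smul3 (c : ℝ) (A B C D : M4) : TR A B ((c : ℂ) • C) D = c * TR A B C D := by
  rw [TR_swap23 A B ((c : ℂ) • C), ta_smul2, TR_swap23 A C B]

private lemma ta_smul4 (c : ℝ) (A B C D : M4) : TR A B C ((c : ℂ) • D) = c * TR A B C D := by
  rw [TR_swap34 A B C ((c : ℂ) • D), ta_smul3, TR_swap34 A B D C]

/-- the inner bilinear form -/
private noncomputable def ta_q (A B : M4) (K' : Fin 2 → Fin 2 → M4) : V4 →ₗ[ℝ] V4 →ₗ[ℝ] ℝ :=
  LinearMap.mk₂ ℝ (fun y y' => TR A B (Bof K' y) (Bof K' y'))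
    (fun y₁ y₂ y' => by rw [ta_Bof_add, ta_add3])
    (fun c y y' => by rw [ta_Bof_smul, ta_smul3, smul_eq_mul])
    (fun y y₁ y₂ => by rw [ta_Bof_add, ta_add4])
    (fun c y y' => by rw [ta_Bof_smul, ta_smul4, smul_eq_mul])

private lemma ta_q_apply (A B : M4) (K' : Fin 2 → Fin 2 → M4) (y y' : V4) :
    ta_q A B K' y y' = TR A B (Bof K' y) (Bof K' y') := rfl

/-- the four linear form -/
private noncomputable def ta_p (K K' : Fin 2 → Fin 2 → M4) :
    V4 →ₗ[ℝ] V4 →ₗ[ℝ] V4 →ₗ[ℝ] V4 →ₗ[ℝ] ℝ :=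
  LinearMap.mk₂ ℝ (fun x x' => ta_q (Bof K x) (Bof K x') K')
    (fun x₁ x₂ x' => LinearMap.ext₂ fun y y' => by
      rw [LinearMap.add_apply, LinearMap.add_apply, ta_q_apply, ta_q_apply, ta_q_apply,
        ta_Bof_add, TR_add])
    (fun c x x' => LinearMap.ext₂ fun y y' => by
      rw [LinearMap.smul_apply, LinearMap.smul_apply, ta_q_apply, ta_q_apply,
        ta_Bof_smul, TR_smul, smul_eq_mul])
    (fun x x₁ x₂ => LinearMap.ext₂ fun y y' => by
      rw [LinearMap.add_apply, LinearMap.add_apply, ta_q_apply, ta_q_apply, ta_q_apply,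
        ta_Bof_add, ta_add2])
    (fun c x x' => LinearMap.ext₂ fun y y' => by
      rw [LinearMap.smul_apply, LinearMap.smul_apply, ta_q_apply, ta_q_apply,
        ta_Bof_smul, ta_smul2, smul_eq_mul])

private lemma ta_p_apply (K K' : Fin 2 → Fin 2 → M4) (x x' y y' : V4) :
    ta_p K K' x x' y y' = TR (Bof K x) (Bof K x') (Bof K' y) (Bof K' y') := rfl

/-- the bilinear form in the first two arguments -/
private noncomputable def ta_r (K K' : Fin 2 → Fin 2 → M4) (y y' : V4) :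
    V4 →ₗ[ℝ] V4 →ₗ[ℝ] ℝ :=
  LinearMap.mk₂ ℝ (fun x x' => ta_p K K' x x' y y')
    (fun x₁ x₂ x' => by rw [ta_p_apply, ta_p_apply, ta_p_apply, ta_Bof_add, TR_add])
    (fun c x x' => by rw [ta_p_apply, ta_p_apply, ta_Bof_smul, TR_smul, smul_eq_mul])
    (fun x x₁ x₂ => by rw [ta_p_apply, ta_p_apply, ta_p_apply, ta_Bof_add, ta_add2])
    (fun c x x' => by rw [ta_p_apply, ta_p_apply, ta_Bof_smul, ta_smul2, smul_eq_mul])

private lemma ta_r_apply (K K' : Fin 2 → Fin 2 → M4) (x x' y y' : V4) :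
    ta_r K K' y y' x x' = ta_p K K' x x' y y' := rfl

private lemma ta_alg (t : PolyForms 4 →ₗ[ℂ] ℂ) (u0 v0 : PolyForms 4) (u v : Fin 3 → PolyForms 4) :
    t ((u0 - ∑ i, u i) * (v0 - ∑ j, v j)) =
      (t (u0 * v0) - ∑ j, t (u0 * v j)) - ∑ i, (t (u i * v0) - ∑ j, t (u i * v j)) := by
  have h : (u0 - ∑ i, u i) * (v0 - ∑ j, v j) =
      (u0 * v0 - ∑ j, u0 * v j) - ∑ i, (u i * v0 - ∑ j, u i * v j) := by
    simp only [Fin.sum_univ_three]
    ring
  rw [h]
  simp only [map_sub, map_sum]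

private lemma ta_key (K K' : Fin 2 → Fin 2 → M4) (hK : GPos K) (hK' : GPos K') (μ ν : Fin 4) :
    topCoeff 4 ((lin (Bmat K μ) * lin (Bmat K μ)) * (lin (Bmat K' ν) * lin (Bmat K' ν))) =
      ((ta_p K K' (Pi.single μ 1) (Pi.single μ 1) (Pi.single ν 1) (Pi.single ν 1) : ℝ) : ℂ) := by
  have hB : (Bmat K μ).IsHermitian := by
    rw [← Bof_single]
    exact Bof_isHermitian hK _
  have hB' : (Bmat K' ν).IsHermitian := by
    rw [← Bof_single]
    exact Bof_isHermitian hK' _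
  rw [ta_p_apply, Bof_single, Bof_single]
  generalize Bmat K μ = A at hB
  generalize Bmat K' ν = A' at hB'
  rw [← mul_assoc]
  exact TR_im hB hB hB' hB'

private lemma ta_alg' (t : PolyForms 4 →ₗ[ℂ] ℂ) (u0 v0 : PolyForms 4) (u v : Fin 3 → PolyForms 4)
    (a : ℝ) (b c : Fin 3 → ℝ) (d : Fin 3 → Fin 3 → ℝ) (ha : t (u0 * v0) = (a : ℂ))
    (hc : ∀ j, t (u0 * v j) = (c j : ℂ)) (hb : ∀ i, t (u i * v0) = (b i : ℂ))
    (hd : ∀ i j, t (u i * v j) = (d i j : ℂ)) :
    t ((u0 - ∑ i, u i) * (v0 - ∑ j, v j)) =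
      (((a - ∑ j, c j) - ∑ i, (b i - ∑ j, d i j) : ℝ) : ℂ) := by
  rw [ta_alg]
  simp only [ha, hb, hc, hd]
  push_cast
  rfl

private lemma ta_top (K K' : Fin 2 → Fin 2 → M4) (hK : GPos K) (hK' : GPos K') :
    topCoeff 4 ((sysLin K).det * (sysLin K').det) =
      (((ta_p K K' (Pi.single 0 1) (Pi.single 0 1) (Pi.single 0 1) (Pi.single 0 1)
        - ∑ j : Fin 3, ta_p K K' (Pi.single 0 1) (Pi.single 0 1) (Pi.single j.succ 1)
            (Pi.single j.succ 1))
        - ∑ i : Fin 3, (ta_p K K' (Pi.single i.succ 1) (Pi.single i.succ 1) (Pi.single 0 1)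
            (Pi.single 0 1)
          - ∑ j : Fin 3, ta_p K K' (Pi.single i.succ 1) (Pi.single i.succ 1) (Pi.single j.succ 1)
            (Pi.single j.succ 1)) : ℝ) : ℂ) := by
  rw [det_sysLin_two, det_sysLin_two]
  exact ta_alg' (topCoeff 4) (lin (Bmat K 0) * lin (Bmat K 0)) (lin (Bmat K' 0) * lin (Bmat K' 0))
    (fun i => lin (Bmat K i.succ) * lin (Bmat K i.succ))
    (fun j => lin (Bmat K' j.succ) * lin (Bmat K' j.succ))
    (ta_p K K' (Pi.single 0 1) (Pi.single 0 1) (Pi.single 0 1) (Pi.single 0 1))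
    (fun i => ta_p K K' (Pi.single i.succ 1) (Pi.single i.succ 1) (Pi.single 0 1)
            (Pi.single 0 1))
    (fun j => ta_p K K' (Pi.single 0 1) (Pi.single 0 1) (Pi.single j.succ 1)
            (Pi.single j.succ 1))
    (fun i j => ta_p K K' (Pi.single i.succ 1) (Pi.single i.succ 1) (Pi.single j.succ 1)
            (Pi.single j.succ 1))
    (ta_key K K' hK hK' 0 0) (fun j => ta_key K K' hK hK' 0 j.succ)
    (fun i => ta_key K K' hK hK' i.succ 0) (fun i j => ta_key K K' hK hK' i.succ j.succ)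

private lemma ta_sum (a : ℝ) (b c : Fin 3 → ℝ) (d : Fin 3 → Fin 3 → ℝ)
    (h : ∀ i j, 0 ≤ a - 3 * b i - 3 * c j + 9 * d i j) :
    0 ≤ (a - ∑ j, c j) - ∑ i, (b i - ∑ j, d i j) := by
  simp only [Fin.sum_univ_three]
  have := h 0 0
  have := h 0 1
  have := h 0 2
  have := h 1 0
  have := h 1 1
  have := h 1 2
  have := h 2 0
  have := h 2 1
  have := h 2 2
  linarith

theorem two_strict {K K' : Fin 2 → Fin 2 → M4} (hK : GPosS K) (hK' : GPosS K') :
    0 ≤ topCoeff 4 ((sysLin K).det * (sysLin K').det) := by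
  rw [ta_top K K' hK.gpos hK'.gpos]
  obtain ⟨x, y, hx1, hx0, hy1, hy0, hx, hy⟩ := minimizer (ta_p K K')
    (fun x x' y y' => by rw [ta_p_apply, ta_p_apply, TR_swap12])
    (fun x x' y y' => by rw [ta_p_apply, ta_p_apply, TR_swap34])
    (fun x y hx hx0 hy hy0 => by
      rw [ta_p_apply]
      exact TR_pos (Bof_posDef hK hx hx0) (Bof_posDef hK hx hx0) (Bof_posDef hK' hy hy0)
        (Bof_posDef hK' hy hy0))
  have hxc : Cone x := ⟨hx0.le, by rw [hx1]; exact zero_le_one⟩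
  have hyc : Cone y := ⟨hy0.le, by rw [hy1]; exact zero_le_one⟩
  have hxn : x ≠ 0 := by
    intro h
    rw [h] at hx0
    exact lt_irrefl _ hx0
  have hyn : y ≠ 0 := by
    intro h
    rw [h] at hy0
    exact lt_irrefl _ hy0
  obtain ⟨f, hf1, hf2, hf3, hf4⟩ := frame x hx1 hx0
  obtain ⟨g, hg1, hg2, hg3, hg4⟩ := frame y hy1 hy0
  have e1 : ∀ a b : V4, (ta_p K K' a b (Pi.single 0 1) (Pi.single 0 1)
      - ∑ j : Fin 3, ta_p K K' a b (Pi.single j.succ 1) (Pi.single j.succ 1))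
      = ta_p K K' a b y y - ∑ j, ta_p K K' a b (g j) (g j) := fun a b => hg4 (ta_p K K' a b)
  have e2 : ∀ a b : V4, (ta_p K K' (Pi.single 0 1) (Pi.single 0 1) a b
      - ∑ j : Fin 3, ta_p K K' (Pi.single j.succ 1) (Pi.single j.succ 1) a b)
      = ta_p K K' x x a b - ∑ j, ta_p K K' (f j) (f j) a b := fun a b => hf4 (ta_r K K' a b)
  have e3 : (ta_p K K' (Pi.single 0 1) (Pi.single 0 1) (Pi.single 0 1) (Pi.single 0 1)
        - ∑ j : Fin 3, ta_p K K' (Pi.single 0 1) (Pi.single 0 1) (Pi.single j.succ 1)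
            (Pi.single j.succ 1))
        - ∑ i : Fin 3, (ta_p K K' (Pi.single i.succ 1) (Pi.single i.succ 1) (Pi.single 0 1)
            (Pi.single 0 1)
          - ∑ j : Fin 3, ta_p K K' (Pi.single i.succ 1) (Pi.single i.succ 1) (Pi.single j.succ 1)
            (Pi.single j.succ 1))
      = (ta_p K K' x x y y - ∑ j, ta_p K K' x x (g j) (g j))
        - ∑ i, (ta_p K K' (f i) (f i) y y - ∑ j, ta_p K K' (f i) (f i) (g j) (g j)) := by
    simp only [e1]
    have h1 := e2 y y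
    have h2 := fun j => e2 (g j) (g j)
    have h3 : ∑ j, (ta_p K K' (Pi.single 0 1) (Pi.single 0 1) (g j) (g j)
        - ∑ i : Fin 3, ta_p K K' (Pi.single i.succ 1) (Pi.single i.succ 1) (g j) (g j))
        = ∑ j, (ta_p K K' x x (g j) (g j) - ∑ i, ta_p K K' (f i) (f i) (g j) (g j)) :=
      Finset.sum_congr rfl (fun j _ => h2 j)
    rw [Finset.sum_sub_distrib, Finset.sum_sub_distrib] at h3
    rw [Finset.sum_comm] at h3
    rw [Finset.sum_comm (f := fun j i => ta_p K K' (f i) (f i) (g j) (g j))] at h3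
    rw [Finset.sum_sub_distrib, Finset.sum_sub_distrib]
    linarith
  rw [e3, Complex.zero_le_real]
  refine ta_sum _ _ _ _ (fun i j => ?_)
  have hD : 0 < TR (Bof K x) (Bof K x) (Bof K' y) (Bof K' y) :=
    TR_pos (Bof_posDef hK hxc hxn) (Bof_posDef hK hxc hxn) (Bof_posDef hK' hyc hyn)
      (Bof_posDef hK' hyc hyn)
  have h1 : TR (Bof K x) (Bof K (f i)) (Bof K' y) (Bof K' y) = 0 := by
    have := hx (f i)
    rw [hf1 i, mul_zero, ta_p_apply] at this
    exact this
  have h2 : TR (Bof K x) (Bof K x) (Bof K' y) (Bof K' (g j)) = 0 := by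
    have := hy (g j)
    rw [hg1 j, mul_zero, ta_p_apply] at this
    exact this
  have h3 := pointwise (B := Bof K x) (R := Bof K (f i)) (C := Bof K' y) (S := Bof K' (g j))
    (Bof_isHermitian hK.gpos _) (Bof_isHermitian hK'.gpos _)
    (by rw [← ta_Bof_add]; exact Bof_posSemidef hK.gpos (hf2 i))
    (by rw [← ta_Bof_sub]; exact Bof_posSemidef hK.gpos (hf3 i))
    (by rw [← ta_Bof_add]; exact Bof_posSemidef hK'.gpos (hg2 j))
    (by rw [← ta_Bof_sub]; exact Bof_posSemidef hK'.gpos (hg3 j)) hD h1 h2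
  simp only [ta_p_apply]
  exact h3

end Pool.Agent.Lib.GS4
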