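import Pool.Agent.Lib.GS4.TA
/-! MP_2e24f1_ag, row TB: two semipositive systems of rank two.

`pert K ε`, `pert K' ε` are strictly positive for `ε > 0` (`pert_strict`), and
`topCoeff 4 ((sysLin (pert K ε)).det * (sysLin (pert K' ε)).det)` is `topCoeff 4` of the polynomial
`pertPoly K * pertPoly K'` at `ε` (`eval_pertPoly`), so continuous in `ε`
(`continuous_topCoeff_eval`); compare `gpos_of_normal` in `MP_2e24f1_ag/Reduce.lean`. -/

set_option autoImplicit false

open Matrix Pool.Agent.MP2e24f1
open scoped ComplexOrder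

namespace Pool.Agent.Lib.GS4

theorem two_nonneg' {K K' : Fin 2 → Fin 2 → M4} (hK : GPos K) (hK' : GPos K') :
    0 ≤ topCoeff 4 ((sysLin K).det * (sysLin K').det) := by
  have hcont := continuous_topCoeff_eval (pertPoly K * pertPoly K')
  simp only [Polynomial.eval_mul, eval_pertPoly] at hcont
  have hpos : ∀ ε : ℝ, 0 < ε →
      0 ≤ topCoeff 4 ((sysLin (pert K ε)).det * (sysLin (pert K' ε)).det) :=
    fun ε hε => two_strict (pert_strict hK hε) (pert_strict hK' hε)
  have h0 : ∀ L : Fin 2 → Fin 2 → M4, pert L 0 = L := by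
    intro L
    funext a b
    unfold pert
    simp
  have hlim : Filter.Tendsto
      (fun ε : ℝ => topCoeff 4 ((sysLin (pert K ε)).det * (sysLin (pert K' ε)).det))
      (nhdsWithin 0 (Set.Ioi 0))
      (nhds (topCoeff 4 ((sysLin (pert K 0)).det * (sysLin (pert K' 0)).det))) :=
    (hcont.tendsto 0).mono_left nhdsWithin_le_nhds
  rw [h0, h0] at hlim
  apply ge_of_tendsto hlim
  filter_upwards [self_mem_nhdsWithin] with ε hε
  exact hpos ε hε

end Pool.Agent.Lib.GS4
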