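import Pool.Agent.Lib.GS4.Defs
/-! MP_2e24f1_ag, row TP: elementary properties of `TR`.

`TR` is symmetric (the ring `PolyForms` is commutative) and additive and homogeneous in each
argument (`lin_add`, `lin_smul`). Positivity: a positive semidefinite matrix is a sum of matrices
`v v^*` (`psd_spectral`), and `topCoeff 4` of `lin (v₁ v₁^*) ⋯ lin (v₄ v₄^*)` is `|det (v₁ … v₄)|²`
(`topCoeff_prod_lin`, `sum_prod_eps`); or peel off one factor after the other with `peel_step`.
`TR_pos`: `X ≥ c • 1` for some `c > 0`, so `TR X Y Z W ≥ c₁ c₂ c₃ c₄ TR 1 1 1 1 = 24 c₁ c₂ c₃ c₄`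
(`topCoeff_lin_pow`). `TR_im`: for Hermitian matrices `topCoeff` of the product is real
(`topCoeff_prod_lin` and exchange of `a` and `b`). -/

set_option autoImplicit false

open Matrix Pool.Agent.MP2e24f1
open scoped ComplexOrder

namespace Pool.Agent.Lib.GS4

private theorem prod4 (A B C D : M4) :
    lin A * lin B * lin C * lin D = ∏ i : Fin 4, lin ((![A, B, C, D] : Fin 4 → M4) i) := by
  rw [Fin.prod_univ_four]
  rfl

private theorem star_eps (a : Fin 4 → Fin 4) : star (eps a) = eps a := by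
  by_cases ha : Function.Injective a
  · let α : Equiv.Perm (Fin 4) := Equiv.ofBijective a (Finite.injective_iff_bijective.mp ha)
    have e1 : a = α := rfl
    rw [e1, eps_perm]
    simp
  · rw [eps_not_inj ha, star_zero]

private theorem top_rank_one (v : Fin 4 → Fin 4 → ℂ) :
    topCoeff 4 (∏ i : Fin 4, lin (Matrix.vecMulVec (v i) (fun j => star (v i j)))) =
      (Matrix.of v).det * star (Matrix.of v).det := by
  rw [topCoeff_prod_lin]
  simp only [Matrix.vecMulVec_apply, Finset.prod_mul_distrib]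
  have h1 : ∀ p q : Fin 4 → Fin 4,
      (∏ i, v i (p i)) * (∏ i, star (v i (q i))) * (eps p * eps q) =
      ((∏ i, (Matrix.of v) i (p i)) * eps p) * star ((∏ i, (Matrix.of v) i (q i)) * eps q) := by
    intro p q
    rw [star_mul', star_eps, star_prod]
    simp only [Matrix.of_apply]
    ring
  simp only [h1]
  simp only [← Finset.mul_sum]
  rw [← Finset.sum_mul, ← star_sum, sum_prod_eps]

private theorem psd_lin_sum {A : M4} (hA : A.PosSemidef) :
    ∃ w : Fin 4 → Fin 4 → ℂ,
      lin A = ∑ i, lin (Matrix.vecMulVec (w i) (fun j => star (w i j))) := by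
  obtain ⟨U, d, hd, -, -, hA0⟩ := psd_spectral A hA
  refine ⟨fun i p => ((Real.sqrt (d i) : ℝ) : ℂ) * U p i, ?_⟩
  rw [← lin_sum]
  congr 1
  rw [hA0]
  ext p q
  rw [Matrix.sum_apply, Matrix.mul_apply]
  apply Finset.sum_congr rfl
  intro i _
  rw [Matrix.mul_diagonal, Matrix.conjTranspose_apply, Matrix.vecMulVec_apply, star_mul']
  have h1 : star ((Real.sqrt (d i) : ℝ) : ℂ) = ((Real.sqrt (d i) : ℝ) : ℂ) := Complex.conj_ofReal _
  have h2 : ((Real.sqrt (d i) : ℝ) : ℂ) * ((Real.sqrt (d i) : ℝ) : ℂ) = ((d i : ℝ) : ℂ) := by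
    rw [← Complex.ofReal_mul, Real.mul_self_sqrt (hd i)]
  rw [h1]
  calc U p i * ((d i : ℝ) : ℂ) * star (U q i)
      = (((Real.sqrt (d i) : ℝ) : ℂ) * ((Real.sqrt (d i) : ℝ) : ℂ)) * (U p i * star (U q i)) := by
        rw [h2]; ring
    _ = ((Real.sqrt (d i) : ℝ) : ℂ) * U p i * (((Real.sqrt (d i) : ℝ) : ℂ) * star (U q i)) := by
        ring

private theorem TC_nonneg {A B C D : M4} (hA : A.PosSemidef) (hB : B.PosSemidef)
    (hC : C.PosSemidef) (hD : D.PosSemidef) :
    0 ≤ topCoeff 4 (lin A * lin B * lin C * lin D) := by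
  obtain ⟨a, ha⟩ := psd_lin_sum hA
  obtain ⟨b, hb⟩ := psd_lin_sum hB
  obtain ⟨c, hc⟩ := psd_lin_sum hC
  obtain ⟨d, hd⟩ := psd_lin_sum hD
  rw [ha, hb, hc, hd]
  simp only [Finset.sum_mul, Finset.mul_sum, map_sum]
  apply Finset.sum_nonneg
  intro i _
  apply Finset.sum_nonneg
  intro j _
  apply Finset.sum_nonneg
  intro k _
  apply Finset.sum_nonneg
  intro l _
  have key : ∀ w x y z : Fin 4 → ℂ,
      0 ≤ topCoeff 4 (lin (Matrix.vecMulVec w (fun j => star (w j))) *
        lin (Matrix.vecMulVec x (fun j => star (x j))) *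
        lin (Matrix.vecMulVec y (fun j => star (y j))) *
        lin (Matrix.vecMulVec z (fun j => star (z j)))) := by
    intro w x y z
    have h := top_rank_one (![w, x, y, z])
    rw [Fin.prod_univ_four] at h
    change topCoeff 4 (lin (Matrix.vecMulVec w (fun j => star (w j))) *
        lin (Matrix.vecMulVec x (fun j => star (x j))) *
        lin (Matrix.vecMulVec y (fun j => star (y j))) *
        lin (Matrix.vecMulVec z (fun j => star (z j)))) = _ at h
    rw [h]
    exact mul_star_self_nonneg _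
  exact key _ _ _ _

theorem TR_swap12 (A B C D : M4) : TR A B C D = TR B A C D := by
  unfold TR
  rw [mul_comm (lin A) (lin B)]

theorem TR_swap23 (A B C D : M4) : TR A B C D = TR A C B D := by
  unfold TR
  rw [mul_right_comm (lin A) (lin B) (lin C)]

theorem TR_swap34 (A B C D : M4) : TR A B C D = TR A B D C := by
  unfold TR
  rw [mul_right_comm (lin A * lin B) (lin C) (lin D)]

theorem TR_add (A A' B C D : M4) : TR (A + A') B C D = TR A B C D + TR A' B C D := by
  unfold TR
  rw [lin_add, add_mul, add_mul, add_mul, map_add, Complex.add_re]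

theorem TR_smul (c : ℝ) (A B C D : M4) : TR ((c : ℂ) • A) B C D = c * TR A B C D := by
  unfold TR
  rw [lin_smul, smul_mul_assoc, smul_mul_assoc, smul_mul_assoc, map_smul, smul_eq_mul,
    Complex.re_ofReal_mul]

theorem TR_im {A B C D : M4} (hA : A.IsHermitian) (hB : B.IsHermitian) (hC : C.IsHermitian)
    (hD : D.IsHermitian) :
    topCoeff 4 (lin A * lin B * lin C * lin D) = ((TR A B C D : ℝ) : ℂ) := by
  have hH : ∀ i : Fin 4, ((![A, B, C, D] : Fin 4 → M4) i).IsHermitian := by
    intro i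
    fin_cases i
    · exact hA
    · exact hB
    · exact hC
    · exact hD
  have h1 : star (topCoeff 4 (lin A * lin B * lin C * lin D)) =
      topCoeff 4 (lin A * lin B * lin C * lin D) := by
    rw [prod4, topCoeff_prod_lin, star_sum]
    simp only [star_sum]
    rw [Finset.sum_comm]
    apply Finset.sum_congr rfl
    intro b _
    apply Finset.sum_congr rfl
    intro a _
    rw [star_mul', star_mul', star_eps, star_eps, star_prod, mul_comm (eps a) (eps b)]
    congr 1
    apply Finset.prod_congr rfl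
    intro i _
    exact (hH i).apply _ _
  unfold TR
  exact (Complex.conj_eq_iff_re.mp h1).symm

theorem TR_nonneg {A B C D : M4} (hA : A.PosSemidef) (hB : B.PosSemidef) (hC : C.PosSemidef)
    (hD : D.PosSemidef) : 0 ≤ TR A B C D :=
  (Complex.nonneg_iff.mp (TC_nonneg hA hB hC hD)).1

theorem TR_self (A : M4) : topCoeff 4 (lin A * lin A * lin A * lin A) = 24 * A.det := by
  have h : lin A * lin A * lin A * lin A = lin A ^ 4 := by ring
  rw [h, topCoeff_lin_pow]
  norm_num [Nat.factorial]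

private theorem posDef_lower {A : M4} (hA : A.PosDef) :
    ∃ (c : ℝ) (E : M4), 0 < c ∧ E.PosSemidef ∧ A = E + (c : ℂ) • (1 : M4) := by
  have hpos : ∀ i, 0 < hA.1.eigenvalues i := hA.eigenvalues_pos
  obtain ⟨i0, hi0⟩ := Finite.exists_min hA.1.eigenvalues
  have hU1 : (hA.1.eigenvectorUnitary : M4) * (hA.1.eigenvectorUnitary : M4)ᴴ = 1 :=
    (Unitary.mem_iff.mp hA.1.eigenvectorUnitary.2).2
  have h := hA.1.spectral_theorem
  rw [Unitary.conjStarAlgAut_apply] at h
  refine ⟨hA.1.eigenvalues i0, (hA.1.eigenvectorUnitary : M4) *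
    Matrix.diagonal (fun i => ((hA.1.eigenvalues i - hA.1.eigenvalues i0 : ℝ) : ℂ)) *
    (hA.1.eigenvectorUnitary : M4)ᴴ, hpos i0, ?_, ?_⟩
  · have hdiag : (Matrix.diagonal
        (fun i => ((hA.1.eigenvalues i - hA.1.eigenvalues i0 : ℝ) : ℂ))).PosSemidef := by
      refine Matrix.PosSemidef.diagonal (fun i => ?_)
      change (0 : ℂ) ≤ ((hA.1.eigenvalues i - hA.1.eigenvalues i0 : ℝ) : ℂ)
      exact Complex.zero_le_real.mpr (sub_nonneg.mpr (hi0 i))
    exact hdiag.mul_mul_conjTranspose_same _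
  · have h2 : Matrix.diagonal (fun i => ((hA.1.eigenvalues i - hA.1.eigenvalues i0 : ℝ) : ℂ)) =
        Matrix.diagonal (fun i => ((hA.1.eigenvalues i : ℝ) : ℂ)) -
          ((hA.1.eigenvalues i0 : ℝ) : ℂ) • (1 : M4) := by
      ext p q
      by_cases hpq : p = q
      · subst hpq
        simp
      · simp [hpq]
    rw [h2, Matrix.mul_sub, Matrix.sub_mul, Matrix.mul_smul, Matrix.smul_mul, Matrix.mul_one, hU1,
      sub_add_cancel]
    exact h

private theorem TR_one : TR 1 1 1 1 = 24 := by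
  unfold TR
  rw [TR_self, Matrix.det_one, mul_one]
  rfl

private theorem TR_low {c : ℝ} {E A B C D : M4} (hE : E.PosSemidef) (e : A = E + (c : ℂ) • (1 : M4))
    (hB : B.PosSemidef) (hC : C.PosSemidef) (hD : D.PosSemidef) :
    c * TR 1 B C D ≤ TR A B C D := by
  rw [e, TR_add, TR_smul]
  have := TR_nonneg hE hB hC hD
  linarith

attribute [local irreducible] TR

theorem TR_pos {A B C D : M4} (hA : A.PosDef) (hB : B.PosDef) (hC : C.PosDef)
    (hD : D.PosDef) : 0 < TR A B C D := by
  obtain ⟨a, A', ha, hA', eA⟩ := posDef_lower hA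
  obtain ⟨b, B', hb, hB', eB⟩ := posDef_lower hB
  obtain ⟨c, C', hc, hC', eC⟩ := posDef_lower hC
  obtain ⟨d, D', hd, hD', eD⟩ := posDef_lower hD
  have h1 : (1 : M4).PosSemidef := Matrix.PosSemidef.one
  have hBs := hB.posSemidef
  have hCs := hC.posSemidef
  have hDs := hD.posSemidef
  have step1 : a * TR 1 B C D ≤ TR A B C D := TR_low hA' eA hBs hCs hDs
  have step2 : b * TR 1 1 C D ≤ TR B 1 C D := TR_low hB' eB h1 hCs hDs
  have step3 : c * TR 1 1 1 D ≤ TR C 1 1 D := TR_low hC' eC h1 h1 hDs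
  have step4 : d * TR 1 1 1 1 ≤ TR D 1 1 1 := TR_low hD' eD h1 h1 h1
  rw [TR_one] at step4
  have e2 : TR B 1 C D = TR 1 B C D := TR_swap12 B 1 C D
  have e3 : TR C 1 1 D = TR 1 1 C D := (TR_swap12 C 1 1 D).trans (TR_swap23 1 C 1 D)
  have e4 : TR D 1 1 1 = TR 1 1 1 D :=
    ((TR_swap12 D 1 1 1).trans (TR_swap23 1 D 1 1)).trans (TR_swap34 1 1 D 1)
  rw [e2] at step2
  rw [e3] at step3
  rw [e4] at step4
  have p4 : 0 < TR 1 1 1 D := lt_of_lt_of_le (mul_pos hd (by norm_num)) step4
  have p3 : 0 < TR 1 1 C D := lt_of_lt_of_le (mul_pos hc p4) step3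
  have p2 : 0 < TR 1 B C D := lt_of_lt_of_le (mul_pos hb p3) step2
  exact lt_of_lt_of_le (mul_pos ha p2) step1

end Pool.Agent.Lib.GS4
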