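import Pool.Agent.Lib.GS4.Defs
/-! MP_2e24f1_ag, row WB: block diagonal whitening.

As `exists_whiten` in `MP_2e24f1_ag/Final.lean`, but with `Q` block diagonal. For example
`Q = H^(-1/2)` by the continuous functional calculus (it commutes with every matrix that commutes
with `H`, in particular with the diagonal projections onto the blocks); or apply `exists_whiten` to
each block `H.submatrix` on `{a // b a = β}` and put the results together. -/

set_option autoImplicit false

open Matrix Pool.Agent.MP2e24f1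
open scoped ComplexOrder

namespace Pool.Agent.Lib.GS4

/-- A matrix which commutes with `U diag(d) Uᴴ` commutes with `U diag(s) Uᴴ`, when `s` is a
function of `d`. -/
private lemma wb_comm {r : ℕ} (U D : Matrix (Fin r) (Fin r) ℂ) (d s : Fin r → ℂ)
    (hU1 : Uᴴ * U = 1) (hU2 : U * Uᴴ = 1) (hs : ∀ i j, d i = d j → s i = s j)
    (hD : D * (U * diagonal d * Uᴴ) = (U * diagonal d * Uᴴ) * D) :
    D * (U * diagonal s * Uᴴ) = (U * diagonal s * Uᴴ) * D := by
  have h1 : (Uᴴ * D * U) * diagonal d = diagonal d * (Uᴴ * D * U) := by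
    calc (Uᴴ * D * U) * diagonal d = (Uᴴ * D * U) * diagonal d * (Uᴴ * U) := by
          rw [hU1, Matrix.mul_one]
      _ = Uᴴ * (D * (U * diagonal d * Uᴴ)) * U := by simp only [Matrix.mul_assoc]
      _ = Uᴴ * ((U * diagonal d * Uᴴ) * D) * U := by rw [hD]
      _ = (Uᴴ * U) * diagonal d * (Uᴴ * D * U) := by simp only [Matrix.mul_assoc]
      _ = diagonal d * (Uᴴ * D * U) := by rw [hU1, Matrix.one_mul]
  have h2 : (Uᴴ * D * U) * diagonal s = diagonal s * (Uᴴ * D * U) := by
    ext i j
    have h := congrFun (congrFun h1 i) j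
    rw [Matrix.mul_diagonal, Matrix.diagonal_mul] at h ⊢
    by_cases hij : d i = d j
    · rw [hs i j hij, mul_comm]
    · have h0 : (Uᴴ * D * U) i j * (d j - d i) = 0 := by
        rw [mul_sub, h]
        ring
      rcases mul_eq_zero.1 h0 with h3 | h3
      · rw [h3, zero_mul, mul_zero]
      · exact absurd (sub_eq_zero.1 h3).symm hij
  calc D * (U * diagonal s * Uᴴ) = (U * Uᴴ) * D * (U * diagonal s * Uᴴ) := by
        rw [hU2, Matrix.one_mul]
    _ = U * ((Uᴴ * D * U) * diagonal s) * Uᴴ := by simp only [Matrix.mul_assoc]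
    _ = U * (diagonal s * (Uᴴ * D * U)) * Uᴴ := by rw [h2]
    _ = (U * diagonal s * Uᴴ) * D * (U * Uᴴ) := by simp only [Matrix.mul_assoc]
    _ = (U * diagonal s * Uᴴ) * D := by rw [hU2, Matrix.mul_one]

theorem exists_whiten_block {r : ℕ} {β : Type*} [DecidableEq β] (b : Fin r → β)
    {H : Matrix (Fin r) (Fin r) ℂ} (hH : H.PosDef) (hb : ∀ a c, b a ≠ b c → H a c = 0) :
    ∃ Q : Matrix (Fin r) (Fin r) ℂ, Q.det ≠ 0 ∧ Qᴴ * H * Q = 1 ∧
      ∀ a c, b a ≠ b c → Q a c = 0 := by
  obtain ⟨U, d, hd, hU1, hU2, hAU⟩ := psd_spectral H hH.posSemidef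
  have hdpos : ∀ i, d i ≠ 0 := by
    have h1 := hH.det_pos.ne'
    rw [hAU, Matrix.det_mul, Matrix.det_mul, Matrix.det_diagonal] at h1
    intro i hi
    apply h1
    have : ∏ i, ((d i : ℝ) : ℂ) = 0 := Finset.prod_eq_zero (Finset.mem_univ i) (by rw [hi]; simp)
    rw [this]
    ring
  let s : Fin r → ℂ := fun i => (((Real.sqrt (d i))⁻¹ : ℝ) : ℂ)
  have hsd : diagonal s * diagonal (fun i => (d i : ℂ)) * diagonal s = 1 := by
    rw [Matrix.diagonal_mul_diagonal, Matrix.diagonal_mul_diagonal, ← Matrix.diagonal_one]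
    congr 1
    funext i
    simp only [s]
    have h2 : 0 < Real.sqrt (d i) := Real.sqrt_pos.mpr (lt_of_le_of_ne (hd i) (hdpos i).symm)
    have h3 : (Real.sqrt (d i))⁻¹ * d i * (Real.sqrt (d i))⁻¹ = 1 := by
      have h4 : d i = Real.sqrt (d i) * Real.sqrt (d i) := (Real.mul_self_sqrt (hd i)).symm
      calc (Real.sqrt (d i))⁻¹ * d i * (Real.sqrt (d i))⁻¹
          = (Real.sqrt (d i))⁻¹ * (Real.sqrt (d i) * Real.sqrt (d i)) * (Real.sqrt (d i))⁻¹ := by
            rw [← h4]
        _ = 1 := by field_simp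
    exact_mod_cast h3
  have hsH : (diagonal s)ᴴ = diagonal s := by
    rw [Matrix.diagonal_conjTranspose]
    congr 1
    funext i
    simp only [s, Pi.star_apply]
    exact Complex.conj_ofReal _
  have hQ : (U * diagonal s * Uᴴ)ᴴ * H * (U * diagonal s * Uᴴ) = 1 := by
    rw [Matrix.conjTranspose_mul, Matrix.conjTranspose_mul, Matrix.conjTranspose_conjTranspose,
      hsH, hAU]
    calc U * (diagonal s * Uᴴ) * (U * diagonal (fun i => (d i : ℂ)) * Uᴴ) *
          (U * diagonal s * Uᴴ)
        = U * (diagonal s * (Uᴴ * U) * diagonal (fun i => (d i : ℂ)) * (Uᴴ * U) *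
          diagonal s) * Uᴴ := by simp only [Matrix.mul_assoc]
      _ = U * (diagonal s * diagonal (fun i => (d i : ℂ)) * diagonal s) * Uᴴ := by
          rw [hU1, Matrix.mul_one, Matrix.mul_one]
      _ = 1 := by rw [hsd, Matrix.mul_one, hU2]
  refine ⟨U * diagonal s * Uᴴ, ?_, hQ, ?_⟩
  · intro h0
    have h := congrArg Matrix.det hQ
    rw [Matrix.det_mul, h0, mul_zero, Matrix.det_one] at h
    exact zero_ne_one h
  · intro a c hac
    have hD : diagonal (fun i => if b i = b a then (1 : ℂ) else 0) *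
        (U * diagonal (fun i => (d i : ℂ)) * Uᴴ) =
        (U * diagonal (fun i => (d i : ℂ)) * Uᴴ) *
          diagonal (fun i => if b i = b a then (1 : ℂ) else 0) := by
      rw [← hAU]
      ext i j
      rw [Matrix.diagonal_mul, Matrix.mul_diagonal]
      by_cases hij : b i = b j
      · rw [hij, mul_comm]
      · rw [hb i j hij, zero_mul, mul_zero]
    have hs : ∀ i j, ((d i : ℝ) : ℂ) = ((d j : ℝ) : ℂ) → s i = s j := by
      intro i j hij
      have : d i = d j := by exact_mod_cast hij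
      simp only [s, this]
    have h := congrFun (congrFun (wb_comm U _ _ s hU1 hU2 hs hD) a) c
    rw [Matrix.diagonal_mul, Matrix.mul_diagonal, if_pos rfl, if_neg (fun h => hac h.symm), one_mul,
      mul_zero] at h
    exact h

end Pool.Agent.Lib.GS4
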